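import Pool.Agent.H24R2.DZ.XB
import Pool.Agent.H24R2.JP.Stir
import Pool.Agent.H24R2.JP.B1

set_option autoImplicit false

/-!
# Hardy's function near a large height
-/

namespace Pool.Agent.Q278.DH

open Complex Filter Topology Set Metric
open Pool.Agent.H24R2.JP (XX HH Om be)
open Pool.Agent.H24R2.JP.StirAux (bound1 bound2 HH_ne HH_deriv ld_diff HH_diff)

/-- the phase `exp (i ϑ(t))`, with `ϑ(t) = arg Γ(1/4 + i t / 2) - (t / 2) log π` -/
noncomputable def phase (t : ℝ) : ℂ :=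
  Gamma (1 / 4 + I * t / 2) / ‖Gamma (1 / 4 + I * t / 2)‖ * cexp (-(I * (t / 2) * Real.log Real.pi))

/-- Hardy's function `Z(t) = exp (i ϑ(t)) ζ(1/2 + i t)` -/
noncomputable def Z (t : ℝ) : ℂ := phase t * riemannZeta (1 / 2 + I * t)

theorem XX_HH (t : ℝ) : XX (I * t) = HH (I * t) * riemannZeta (1 / 2 + I * t) := by
  have h := Pool.Agent.H24R2.JP.B1h.XX_zeta (I * t) (by simp)
  rw [h]
  unfold HH
  have e1 : (1 / 2 + I * t : ℂ) ≠ 0 := by
    intro h
    have := congrArg Complex.re h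
    norm_num at this
  have e2 : (1 - (1 / 2 + I * t) : ℂ) ≠ 0 := by
    intro h
    have := congrArg Complex.re h
    norm_num at this
  have k1 : (4 * (I * t) ^ 2 - 1 : ℂ) * (1 / (1 / 2 + I * t)) = 4 * (I * t - 1 / 2) := by
    rw [mul_one_div, div_eq_iff e1]
    ring
  have k2 : (4 * (I * t) ^ 2 - 1 : ℂ) * (1 / (1 - (1 / 2 + I * t))) = -(4 * (I * t + 1 / 2)) := by
    rw [mul_one_div, div_eq_iff e2]
    ring
  linear_combination k1 + k2

theorem phase_eq (t : ℝ) : phase t = -(HH (I * t) / ‖HH (I * t)‖) := by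
  have hpi : (0 : ℝ) < Real.pi := Real.pi_pos
  have e1 : (4 * (I * (t : ℂ)) ^ 2 - 1 : ℂ) = ((-(4 * t ^ 2 + 1) : ℝ) : ℂ) := by
    rw [mul_pow, I_sq]
    push_cast
    ring
  have e2 : (1 / 2 + I * (t : ℂ)) / 2 = 1 / 4 + I * t / 2 := by ring
  have e3 : ((Real.pi : ℂ)) ^ (-(1 / 2 + I * (t : ℂ)) / 2) =
      ((Real.pi ^ (-(1 / 4) : ℝ) : ℝ) : ℂ) * cexp (-(I * (t / 2) * Real.log Real.pi)) := by
    rw [Complex.ofReal_cpow hpi.le, Complex.cpow_def_of_ne_zero (by exact_mod_cast hpi.ne'),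
      Complex.cpow_def_of_ne_zero (by exact_mod_cast hpi.ne'), ← Complex.exp_add, Complex.ofReal_log hpi.le]
    congr 1
    push_cast
    ring
  have hG : Gamma (1 / 4 + I * t / 2) ≠ 0 := by
    apply Gamma_ne_zero_of_re_pos
    simp
  have hH : HH (I * t) = ((-(4 * t ^ 2 + 1) * Real.pi ^ (-(1 / 4) : ℝ) : ℝ) : ℂ) *
      (cexp (-(I * (t / 2) * Real.log Real.pi)) * Gamma (1 / 4 + I * t / 2)) := by
    unfold HH
    rw [e1, Gammaℝ_def, e3, e2]
    push_cast
    ring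
  have hp1 : 0 < (4 * t ^ 2 + 1) * Real.pi ^ (-(1 / 4) : ℝ) := by positivity
  have hex : ‖cexp (-(I * (t / 2) * Real.log Real.pi))‖ = 1 := by
    rw [Complex.norm_exp]
    simp
  have hn : ‖HH (I * t)‖ = (4 * t ^ 2 + 1) * Real.pi ^ (-(1 / 4) : ℝ) * ‖Gamma (1 / 4 + I * t / 2)‖ := by
    rw [hH, norm_mul, norm_mul, hex, one_mul, Complex.norm_real, Real.norm_eq_abs, neg_mul, abs_neg,
      abs_of_pos hp1]
  have hGn : (‖Gamma (1 / 4 + I * t / 2)‖ : ℂ) ≠ 0 := by
    exact_mod_cast (norm_pos_iff.2 hG).ne'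
  have hp2 : (((4 * t ^ 2 + 1) * Real.pi ^ (-(1 / 4) : ℝ) : ℝ) : ℂ) ≠ 0 := by exact_mod_cast hp1.ne'
  unfold phase
  rw [hn, hH]
  have e4 : ((-(4 * t ^ 2 + 1) * Real.pi ^ (-(1 / 4) : ℝ) : ℝ) : ℂ) =
      -((((4 * t ^ 2 + 1) * Real.pi ^ (-(1 / 4) : ℝ) : ℝ) : ℂ)) := by
    push_cast
    ring
  rw [e4, Complex.ofReal_mul _ ‖Gamma (1 / 4 + I * t / 2)‖]
  field_simp

theorem Z_eq (t : ℝ) : Z t = -(XX (I * t) / ‖HH (I * t)‖) := by
  unfold Z
  rw [phase_eq, XX_HH]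
  ring

/-- **Local representation.** -/
theorem local_rep : ∃ K : ℝ, 1 ≤ K ∧ ∀ t : ℝ, 400 ≤ t → ∃ (Q : ℂ → ℂ) (b : ℝ), Q 0 = 0 ∧ |b| ≤ K ∧
    (∀ z, Q (-((starRingEnd ℂ) z)) = (starRingEnd ℂ) (Q z)) ∧
    (∀ z, ‖z‖ < t / 4 → DifferentiableAt ℂ Q z ∧ ‖deriv Q z‖ ≤ K) ∧
    (∀ z, ‖z‖ ≤ 49 → ‖Q z - I * b * z‖ ≤ 500 * K / t * ‖z‖) ∧
    (∀ x : ℝ, |x| < t / 4 → Z (t + x) = -(1 / (‖HH (I * t)‖ : ℂ)) * (XX (I * t + I * x) * cexp (-(Q (I * x))))) := by
  obtain ⟨K1, hK1, hb1⟩ := bound1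
  obtain ⟨K2, hK2, hb2⟩ := bound2
  obtain ⟨K, hK⟩ : ∃ K : ℝ, K = max K1 K2 := ⟨_, rfl⟩
  have hKK1 : K1 ≤ K := by rw [hK]; exact le_max_left _ _
  have hKK2 : K2 ≤ K := by rw [hK]; exact le_max_right _ _
  refine ⟨K, by linarith, ?_⟩
  intro t ht
  have ht0 : 0 < t := by linarith
  obtain ⟨ld, hld⟩ : ∃ ld : ℂ → ℂ, ld = fun z => logDeriv HH (I * t + z) := ⟨_, rfl⟩
  have hin : ∀ z : ℂ, ‖z‖ < t / 4 → 0 < (I * t + z).im ∧ ‖ld z - (Om t : ℂ)‖ ≤ K := by
    intro z hz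
    have h := hb1 t (I * t + z) ht (by rw [add_sub_cancel_left]; exact hz.le)
    rw [hld]
    exact ⟨h.1, h.2.trans hKK1⟩
  have hldd : ∀ z : ℂ, ‖z‖ < t / 4 → DifferentiableAt ℂ ld z := by
    intro z hz
    rw [hld]
    have h1 : DifferentiableAt ℂ (logDeriv HH) (I * t + z) := ld_diff (hin z hz).1
    exact h1.comp z (by fun_prop)
  have hex : Complex.IsExactOn ld (ball 0 (t / 4)) := by
    apply DifferentiableOn.isExactOn_ball
    intro z hz
    rw [mem_ball_zero_iff] at hz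
    exact (hldd z hz).differentiableWithinAt
  obtain ⟨P, hP0, hP⟩ := hex.with_val_at 0 0
  have hP' : ∀ z : ℂ, ‖z‖ < t / 4 → HasDerivAt P (ld z) z := fun z hz => hP z (by rwa [mem_ball_zero_iff])
  have hHH : ∀ z : ℂ, ‖z‖ < t / 4 → HH (I * t + z) = HH (I * t) * cexp (P z) := by
    intro z hz
    have hd : ∀ w : ℂ, ‖w‖ < t / 4 → HasDerivAt (fun w => HH (I * t + w) * cexp (-(P w))) 0 w := by
      intro w hw
      have h1 := HH_deriv (hin w hw).1
      have h2 : HasDerivAt (fun w : ℂ => I * t + w) 1 w := by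
        simpa using (hasDerivAt_id w).const_add (I * (t : ℂ))
      have h3 : HasDerivAt (fun w : ℂ => HH (I * t + w)) (HH (I * t + w) * ld w * 1) w := by
        have := HasDerivAt.comp w h1 h2
        rw [hld]
        simp only
        rw [Pool.Agent.H24R2.JP.StirAux.ld_eq (hin w hw).1]
        exact this
      have h4 : HasDerivAt (fun w => cexp (-(P w))) (cexp (-(P w)) * (-(ld w))) w := ((hP' w hw).neg).cexp
      refine (h3.mul h4).congr_deriv ?_
      ring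
    have hc := isOpen_ball.is_const_of_deriv_eq_zero (𝕜 := ℂ) (s := ball (0 : ℂ) (t / 4))
      (f := fun w => HH (I * t + w) * cexp (-(P w))) (convex_ball _ _).isPreconnected
      (fun w hw => (hd w (by rwa [mem_ball_zero_iff] at hw)).differentiableAt.differentiableWithinAt)
      (fun w hw => (hd w (by rwa [mem_ball_zero_iff] at hw)).deriv)
      (x := z) (y := 0) (by rwa [mem_ball_zero_iff]) (by rw [mem_ball_zero_iff, norm_zero]; linarith)
    simp only [add_zero, hP0, neg_zero, Complex.exp_zero, mul_one] at hc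
    rw [← hc, mul_assoc, ← Complex.exp_add, neg_add_cancel, Complex.exp_zero, mul_one]
  obtain ⟨Q, hQ⟩ : ∃ Q : ℂ → ℂ, Q = fun z => (P z + (starRingEnd ℂ) (P (-((starRingEnd ℂ) z)))) / 2 := ⟨_, rfl⟩
  have hnm : ∀ z : ℂ, ‖-((starRingEnd ℂ) z)‖ = ‖z‖ := by
    intro z
    rw [norm_neg, Complex.norm_conj]
  have hQd : ∀ z : ℂ, ‖z‖ < t / 4 →
      HasDerivAt Q ((ld z - (starRingEnd ℂ) (ld (-((starRingEnd ℂ) z)))) / 2) z := by
    intro z hz
    have h1 := hP' z hz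
    have h2 := hP' (-((starRingEnd ℂ) z)) (by rw [hnm]; exact hz)
    have h3 := h2.conj_conj
    have e : (starRingEnd ℂ) (-((starRingEnd ℂ) z)) = -z := by
      rw [map_neg, Complex.conj_conj]
    rw [e] at h3
    have h4 : HasDerivAt (fun z : ℂ => -z) (-1) z := hasDerivAt_neg z
    have h5 := HasDerivAt.comp z h3 h4
    rw [hQ]
    have h6 := (h1.add h5).div_const 2
    have e2 : (fun z => (P z + (starRingEnd ℂ) (P (-((starRingEnd ℂ) z)))) / 2) =
        fun x => ((P + ((⇑(starRingEnd ℂ) ∘ P ∘ ⇑(starRingEnd ℂ)) ∘ fun z => -z)) x) / 2 := by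
      funext w
      simp
    rw [e2]
    refine h6.congr_deriv ?_
    ring
  obtain ⟨b, hb⟩ : ∃ b : ℝ, b = (be t).im := ⟨_, rfl⟩
  have hld0 : ld 0 = be t := by
    rw [hld]
    simp only [add_zero]
    rfl
  have hbe : ∀ u : ℂ, ‖u‖ ≤ 50 → ‖ld u - be t‖ ≤ 500 * K / t := by
    intro u hu
    have h := ((hb2 t ht).2 u hu).2
    rw [hld]
    refine h.trans ?_
    gcongr
  have hconj : ∀ w : ℂ, ‖(starRingEnd ℂ) w‖ = ‖w‖ := fun w => Complex.norm_conj w
  refine ⟨Q, b, ?_, ?_, ?_, ?_, ?_, ?_⟩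
  · rw [hQ]
    simp [hP0]
  · have h1 := (hin 0 (by rw [norm_zero]; linarith)).2
    rw [hld0] at h1
    have h2 := (Complex.abs_im_le_norm _).trans h1
    rw [Complex.sub_im, Complex.ofReal_im, sub_zero] at h2
    rw [hb]
    exact h2
  · intro z
    rw [hQ]
    simp only [map_neg, Complex.conj_conj, neg_neg, map_div₀, map_add]
    have : (starRingEnd ℂ) (2 : ℂ) = 2 := map_ofNat (starRingEnd ℂ) 2
    rw [this, add_comm]
  · intro z hz
    refine ⟨(hQd z hz).differentiableAt, ?_⟩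
    rw [(hQd z hz).deriv]
    have e : (ld z - (starRingEnd ℂ) (ld (-((starRingEnd ℂ) z)))) / 2 =
        ((ld z - (Om t : ℂ)) - (starRingEnd ℂ) (ld (-((starRingEnd ℂ) z)) - (Om t : ℂ))) / 2 := by
      rw [map_sub, Complex.conj_ofReal]
      ring
    rw [e, norm_div]
    have h1 := (hin z hz).2
    have h2 := (hin (-((starRingEnd ℂ) z)) (by rw [hnm]; exact hz)).2
    have h3 := norm_sub_le (ld z - (Om t : ℂ)) ((starRingEnd ℂ) (ld (-((starRingEnd ℂ) z)) - (Om t : ℂ)))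
    rw [hconj] at h3
    have h4 : ‖(2 : ℂ)‖ = 2 := by norm_num
    rw [h4, div_le_iff₀ (by norm_num)]
    linarith
  · intro z hz
    have hcv : Convex ℝ (ball (0 : ℂ) 50) := convex_ball _ _
    have hd : ∀ w ∈ ball (0 : ℂ) 50, HasDerivAt (fun w => Q w - I * b * w)
        ((ld w - (starRingEnd ℂ) (ld (-((starRingEnd ℂ) w)))) / 2 - I * b) w := by
      intro w hw
      rw [mem_ball_zero_iff] at hw
      have h1 := hQd w (by linarith)
      have h2 : HasDerivAt (fun w : ℂ => I * b * w) (I * b) w := by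
        simpa using (hasDerivAt_id w).const_mul (I * (b : ℂ))
      exact h1.sub h2
    have hbd : ∀ w ∈ ball (0 : ℂ) 50, ‖deriv (fun w => Q w - I * b * w) w‖ ≤ 500 * K / t := by
      intro w hw
      rw [(hd w hw).deriv]
      rw [mem_ball_zero_iff] at hw
      have e0 : I * (b : ℂ) = (be t - (starRingEnd ℂ) (be t)) / 2 := by
        rw [hb]
        apply Complex.ext
        · simp
        · simp
      have e : (ld w - (starRingEnd ℂ) (ld (-((starRingEnd ℂ) w)))) / 2 - I * b =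
          ((ld w - be t) - (starRingEnd ℂ) (ld (-((starRingEnd ℂ) w)) - be t)) / 2 := by
        rw [e0, map_sub]
        ring
      rw [e, norm_div]
      have h1 := hbe w hw.le
      have h2 := hbe (-((starRingEnd ℂ) w)) (by rw [hnm]; exact hw.le)
      have h3 := norm_sub_le (ld w - be t) ((starRingEnd ℂ) (ld (-((starRingEnd ℂ) w)) - be t))
      rw [hconj] at h3
      have h4 : ‖(2 : ℂ)‖ = 2 := by norm_num
      rw [h4, div_le_iff₀ (by norm_num)]
      linarith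
    have h := hcv.norm_image_sub_le_of_norm_deriv_le (f := fun w => Q w - I * b * w) (x := 0) (y := z)
      (fun w hw => (hd w hw).differentiableAt) hbd (by simp) (by rw [mem_ball_zero_iff]; linarith)
    have hQ0 : Q 0 = 0 := by
      rw [hQ]
      simp [hP0]
    simpa [hQ0] using h
  · intro x hx
    have hxn : ‖(I * x : ℂ)‖ < t / 4 := by
      rw [norm_mul, Complex.norm_I, one_mul, Complex.norm_real, Real.norm_eq_abs]
      exact hx
    have e1 : (I * ((t + x : ℝ) : ℂ)) = I * t + I * x := by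
      push_cast
      ring
    rw [Z_eq, e1, hHH _ hxn, norm_mul, Complex.norm_exp]
    have e2 : -((starRingEnd ℂ) (I * (x : ℂ))) = I * x := by
      rw [map_mul, Complex.conj_I, Complex.conj_ofReal]
      ring
    have e3 : Q (I * x) = (((P (I * x)).re : ℝ) : ℂ) := by
      rw [hQ]
      simp only
      rw [e2, Complex.add_conj]
      push_cast
      ring
    rw [e3]
    have e4 : (Real.exp (P (I * x)).re : ℂ) ≠ 0 := by exact_mod_cast (Real.exp_pos _).ne'
    have e5 : cexp (-(((P (I * x)).re : ℝ) : ℂ)) = 1 / (Real.exp (P (I * x)).re : ℂ) := by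
      rw [Complex.ofReal_exp, Complex.exp_neg, one_div]
    rw [e5, Complex.ofReal_mul]
    have e6 : (‖HH (I * t)‖ : ℂ) ≠ 0 := by
      have h0 := HH_ne (z := I * t) (by simpa using ht0)
      exact_mod_cast (norm_pos_iff.2 h0).ne'
    field_simp

end Pool.Agent.Q278.DH
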