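import Pool.Agent.Q278.DH.A

set_option autoImplicit false

/-!
# Iterated derivatives: real and complex
-/

namespace Pool.Agent.Q278.DH

open Complex Filter Topology Set Metric

theorem iter_mul (f : ℂ → ℂ) (c : ℂ) (n : ℕ) (z : ℂ) :
    iteratedDeriv n (fun z => f (c * z)) z = c ^ n * iteratedDeriv n f (c * z) := by
  induction n generalizing z with
  | zero => simp
  | succ n ih =>
    rw [iteratedDeriv_succ]
    have h1 : iteratedDeriv n (fun z => f (c * z)) = fun z => c ^ n * (iteratedDeriv n f) (c * z) :=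
      funext fun z => ih z
    rw [h1, deriv_const_mul_field', iteratedDeriv_succ]
    simp only
    rw [deriv_comp_mul_left, smul_eq_mul]
    ring

theorem iter_add (f : ℂ → ℂ) (c : ℂ) (n : ℕ) (z : ℂ) :
    iteratedDeriv n (fun z => f (z + c)) z = iteratedDeriv n f (z + c) := by
  rw [iteratedDeriv_comp_add_const]

theorem iter_iter (f : ℂ → ℂ) (n j : ℕ) : iteratedDeriv j (iteratedDeriv n f) = iteratedDeriv (n + j) f := by
  rw [iteratedDeriv_eq_iterate, iteratedDeriv_eq_iterate, iteratedDeriv_eq_iterate,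
    ← Function.iterate_add_apply, add_comm]

theorem diffOn_iter {g : ℂ → ℂ} {s : Set ℂ} (hs : IsOpen s) (hg : DifferentiableOn ℂ g s) (n : ℕ) :
    DifferentiableOn ℂ (iteratedDeriv n g) s := by
  induction n with
  | zero => rw [iteratedDeriv_zero]; exact hg
  | succ n ih => rw [iteratedDeriv_succ]; exact ih.deriv hs

/-- the derivatives of a function on the line which is the restriction of an analytic function -/
theorem real_iter {f : ℝ → ℂ} {g : ℂ → ℂ} {ρ t : ℝ} {c : ℂ} (hg : DifferentiableOn ℂ g (ball 0 ρ))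
    (h : ∀ x : ℝ, |x| < ρ → f (t + x) = c * g (I * x)) (n : ℕ) : ∀ x : ℝ, |x| < ρ →
    iteratedDeriv n f (t + x) = c * (I ^ n * iteratedDeriv n g (I * x)) := by
  induction n with
  | zero =>
    intro x hx
    simp only [iteratedDeriv_zero, pow_zero, one_mul]
    exact h x hx
  | succ n ih =>
    intro x hx
    have hopen : IsOpen {y : ℝ | |y - t| < ρ} := isOpen_lt (by fun_prop) continuous_const
    have hmem : {y : ℝ | |y - t| < ρ} ∈ 𝓝 (t + x) := hopen.mem_nhds (by
      show |t + x - t| < ρ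
      rw [add_sub_cancel_left]
      exact hx)
    have hev : iteratedDeriv n f =ᶠ[𝓝 (t + x)] fun y : ℝ => c * (I ^ n * iteratedDeriv n g (I * ((y - t : ℝ) : ℂ))) := by
      filter_upwards [hmem] with y hy
      have h1 := ih (y - t) hy
      rw [add_sub_cancel] at h1
      exact h1
    rw [iteratedDeriv_succ, hev.deriv_eq]
    have hn : ‖(I * x : ℂ)‖ < ρ := by
      rw [norm_mul, Complex.norm_I, one_mul, Complex.norm_real, Real.norm_eq_abs]
      exact hx
    have hd : DifferentiableAt ℂ (iteratedDeriv n g) (I * x) :=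
      (diffOn_iter isOpen_ball hg n).differentiableAt (isOpen_ball.mem_nhds (by rwa [mem_ball_zero_iff]))
    have hlin : HasDerivAt (fun y : ℝ => (I * ((y - t : ℝ) : ℂ))) I (t + x) := by
      have h0 : HasDerivAt (fun y : ℝ => ((y - t : ℝ) : ℂ)) 1 (t + x) := by
        have h1 : HasDerivAt (fun y : ℝ => y - t) 1 (t + x) := (hasDerivAt_id _).sub_const t
        exact h1.ofReal_comp
      simpa using h0.const_mul I
    have e : (I * ((t + x - t : ℝ) : ℂ)) = I * x := by
      rw [add_sub_cancel_left]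
    have hd2 : HasDerivAt (iteratedDeriv n g) (deriv (iteratedDeriv n g) (I * x)) (I * ((t + x - t : ℝ) : ℂ)) := by
      rw [e]
      exact hd.hasDerivAt
    have h2 := ((HasDerivAt.comp (t + x) hd2 hlin).const_mul (I ^ n)).const_mul c
    have h3 : deriv (fun y : ℝ => c * (I ^ n * iteratedDeriv n g (I * ((y - t : ℝ) : ℂ)))) (t + x) =
        c * (I ^ n * (deriv (iteratedDeriv n g) (I * x) * I)) := h2.deriv
    rw [h3, iteratedDeriv_succ]
    ring

theorem order_eq {g : ℂ → ℂ} {z : ℂ} (hg : AnalyticAt ℂ g z) :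
    analyticOrderNatAt g z = sInf {m : ℕ | iteratedDeriv m g z ≠ 0} := by
  rcases eq_or_ne (analyticOrderAt g z) ⊤ with h | h
  · have h1 : ∀ m : ℕ, iteratedDeriv m g z = 0 := by
      intro m
      have h2 := (natCast_le_analyticOrderAt_iff_iteratedDeriv_eq_zero (n := m + 1) hg).1 (by rw [h]; exact le_top)
      exact h2 m (Nat.lt_succ_self m)
    have h3 : {m : ℕ | iteratedDeriv m g z ≠ 0} = ∅ := by
      ext m
      simp [h1 m]
    rw [h3, Nat.sInf_empty]
    unfold analyticOrderNatAt
    rw [h]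
    rfl
  · have h0 := Nat.cast_analyticOrderNatAt h
    obtain ⟨k, hk⟩ : ∃ k, k = analyticOrderNatAt g z := ⟨_, rfl⟩
    rw [← hk] at h0
    have h1 : (∀ j < k, iteratedDeriv j g z = 0) ∧ iteratedDeriv k g z ≠ 0 := by
      have h2 := (natCast_le_analyticOrderAt_iff_iteratedDeriv_eq_zero (n := k) hg).1 h0.le
      refine ⟨h2, fun h3 => ?_⟩
      have h4 := (natCast_le_analyticOrderAt_iff_iteratedDeriv_eq_zero (n := k + 1) hg).2 (by
        intro i hi
        rcases Nat.lt_succ_iff_lt_or_eq.1 hi with h5 | h5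
        · exact h2 i h5
        · rw [h5]; exact h3)
      rw [← h0] at h4
      have h5 : k + 1 ≤ k := by exact_mod_cast h4
      omega
    rw [← hk]
    apply le_antisymm
    · apply le_csInf ⟨k, h1.2⟩
      intro m hm
      by_contra hcon
      push Not at hcon
      exact hm (h1.1 m hcon)
    · exact Nat.sInf_le h1.2

/-- the symmetry of the derivatives on the line -/
theorem symm_iter {g : ℂ → ℂ} (hg : ∀ z, g (-((starRingEnd ℂ) z)) = (starRingEnd ℂ) (g z)) (n : ℕ) (x : ℝ) :
    iteratedDeriv n g (I * x) = (-1) ^ n * (starRingEnd ℂ) (iteratedDeriv n g (I * x)) := by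
  have h1 : ∀ z, (fun z => g (I * z)) ((starRingEnd ℂ) z) = (starRingEnd ℂ) ((fun z => g (I * z)) z) := by
    intro z
    simp only
    rw [← hg]
    congr 1
    rw [map_mul, Complex.conj_I]
    ring
  have h2 := Pool.Agent.H24R2.JP.B1h.iter_conj (fun z => g (I * z)) h1 n (x : ℂ)
  rw [Complex.conj_ofReal, iter_mul, map_mul, map_pow, Complex.conj_I] at h2
  have h3 : (I : ℂ) ^ n ≠ 0 := pow_ne_zero _ I_ne_zero
  have h4 : (-I : ℂ) ^ n = I ^ n * (-1) ^ n := by
    rw [← mul_pow]
    congr 1
    ring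
  rw [h4, mul_assoc] at h2
  exact mul_left_cancel₀ h3 h2

end Pool.Agent.Q278.DH
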