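import Pool.Agent.Q278.DH.B
import Pool.Agent.Q278.DH.C
import Pool.Agent.Q278.DE.A
import Pool.Agent.H24R2.DZ.Half

set_option autoImplicit false

/-!
# The local theorem for a perturbed function
-/

namespace Pool.Agent.Q278.DH

open Complex Filter Topology MeasureTheory Set Metric
open Pool.Agent.H24R2.DZ (bad hc)
open Pool.Agent.H986R2.K4 (QQ S_LAP lapQ)
open scoped ComplexConjugate

/-- a zero of `A + ω conj A` in a window of length `π / (L - e)` -/
theorem exists_zero {A B : ℝ → ℂ} {y0 D L e : ℝ} {ω : ℂ} (hω : ω = 1 ∨ ω = -1) (hD0 : 0 < D)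
    (hD : Real.pi ≤ (L - e) * D)
    (hA : ∀ y ∈ Icc y0 (y0 + D), HasDerivAt A (I * B y) y) (hB : ContinuousOn B (Icc y0 (y0 + D)))
    (hX : ∀ y ∈ Icc y0 (y0 + D), A y ≠ 0 ∧ |(B y / A y).re - L| ≤ e) :
    ∃ y ∈ Icc y0 (y0 + D), A y + ω * conj (A y) = 0 := by
  obtain ⟨E, hEc, hE0, hE1, hE2⟩ := Pool.Agent.Q278.DE.phaseG hD0 hA hB hX
  obtain ⟨φ, hφ⟩ : ∃ φ : ℝ → ℝ, φ = fun y => arg (A y0) + (E y).im := ⟨_, rfl⟩
  have hφc : Continuous φ := by
    rw [hφ]
    exact continuous_const.add (Complex.continuous_im.comp hEc)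
  have hval : ∀ y ∈ Icc y0 (y0 + D), A y = ((‖A y0‖ * Real.exp (E y).re : ℝ) : ℂ) *
      (Real.cos (φ y) + Real.sin (φ y) * I) := by
    intro y hy
    rw [hE1 y hy]
    have h3 : cexp (E y) = (Real.exp (E y).re : ℂ) * cexp ((E y).im * I) := by
      conv_lhs => rw [← Complex.re_add_im (E y), Complex.exp_add]
      push_cast
      ring
    rw [h3]
    conv_lhs => rw [← Complex.norm_mul_exp_arg_mul_I (A y0)]
    have h4 : (Real.cos (φ y) + Real.sin (φ y) * I : ℂ) = cexp (arg (A y0) * I) * cexp ((E y).im * I) := by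
      rw [← Complex.exp_add, ← add_mul, ← Complex.ofReal_add, Complex.exp_mul_I, ← Complex.ofReal_cos,
        ← Complex.ofReal_sin, hφ]
    rw [h4]
    push_cast
    ring
  have hivt : ∀ τ : ℝ, ∃ y ∈ Icc y0 (y0 + D), ∃ k : ℤ, φ y = τ + k * Real.pi := by
    intro τ
    obtain ⟨k, hk⟩ : ∃ k : ℤ, k = ⌈(φ y0 - τ) / Real.pi⌉ := ⟨_, rfl⟩
    have h1 : (φ y0 - τ) / Real.pi ≤ k := by rw [hk]; exact Int.le_ceil _
    have h2 : (k : ℝ) < (φ y0 - τ) / Real.pi + 1 := by rw [hk]; exact Int.ceil_lt_add_one _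
    rw [div_le_iff₀ Real.pi_pos] at h1
    have h2' : (k : ℝ) * Real.pi < (φ y0 - τ) + Real.pi := by
      have h := mul_lt_mul_of_pos_right h2 Real.pi_pos
      rw [add_mul, div_mul_cancel₀ _ Real.pi_pos.ne', one_mul] at h
      exact h
    have h3 := (hE2 y0 (y0 + D) (by linarith)).1
    have e1 : y0 + D - y0 = D := by ring
    rw [e1] at h3
    have h4 : τ + k * Real.pi ∈ Icc (φ y0) (φ (y0 + D)) := by
      have e2 : φ (y0 + D) - φ y0 = (E (y0 + D)).im - (E y0).im := by rw [hφ]; ring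
      constructor <;> linarith
    obtain ⟨y, hy, hy'⟩ := intermediate_value_Icc (by linarith : y0 ≤ y0 + D) hφc.continuousOn h4
    exact ⟨y, hy, k, hy'⟩
  rcases hω with hω | hω
  · obtain ⟨y, hy, k, hk⟩ := hivt (Real.pi / 2)
    refine ⟨y, hy, ?_⟩
    have hc : Real.cos (φ y) = 0 := by
      rw [Real.cos_eq_zero_iff]
      exact ⟨k, by rw [hk]; ring⟩
    rw [hval y hy, hc, hω, map_mul, Complex.conj_ofReal, map_add, map_mul, Complex.conj_ofReal,
      Complex.conj_ofReal, Complex.conj_I]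
    push_cast
    ring
  · obtain ⟨y, hy, k, hk⟩ := hivt 0
    refine ⟨y, hy, ?_⟩
    have hc : Real.sin (φ y) = 0 := by
      rw [Real.sin_eq_zero_iff]
      exact ⟨k, by rw [hk]; ring⟩
    rw [hval y hy, hc, hω, map_mul, Complex.conj_ofReal, map_add, map_mul, Complex.conj_ofReal,
      Complex.conj_ofReal, Complex.conj_I]
    push_cast
    ring

theorem pert_aux {a b D D1 : ℂ} {ρ : ℂ} {m δ ε : ℝ} (hm : 0 < m) (hδ : 0 < δ) (hδε : δ ≤ ε / 16) (hε1 : ε ≤ 1)
    (ha : a ≠ 0) (hb : b = m * ρ * a) (hρ : ‖ρ - 1‖ ≤ ε / 16) (hD : ‖D‖ ≤ 2 * δ * ‖a‖)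
    (hD1 : ‖D1‖ ≤ 2 * δ * m * ‖a‖) :
    a + D / 2 ≠ 0 ∧ |((b + D1 / 2) / (a + D / 2)).re - m| ≤ ε / 4 * m := by
  have ha0 : 0 < ‖a‖ := norm_pos_iff.2 ha
  have h2 : ‖(2 : ℂ)‖ = 2 := by norm_num
  have hD2 : ‖D / 2‖ ≤ δ * ‖a‖ := by
    rw [norm_div, h2]
    linarith
  have hD3 : ‖D1 / 2‖ ≤ δ * m * ‖a‖ := by
    rw [norm_div, h2]
    linarith
  have hA : 15 / 16 * ‖a‖ ≤ ‖a + D / 2‖ := by
    have h := norm_sub_le (a + D / 2) (D / 2)
    rw [add_sub_cancel_right] at h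
    have h3 : δ * ‖a‖ ≤ 1 / 16 * ‖a‖ := mul_le_mul_of_nonneg_right (by linarith) ha0.le
    linarith
  have hA0 : 0 < ‖a + D / 2‖ := lt_of_lt_of_le (by positivity) hA
  have hAne : a + D / 2 ≠ 0 := norm_pos_iff.1 hA0
  refine ⟨hAne, ?_⟩
  have e1 : (b + D1 / 2) / (a + D / 2) - (m : ℂ) = (m * (ρ - 1) * a + D1 / 2 - m * (D / 2)) / (a + D / 2) := by
    rw [hb, eq_div_iff hAne, sub_mul, div_mul_cancel₀ _ hAne]
    ring
  have e2 : ((b + D1 / 2) / (a + D / 2)).re - m = ((b + D1 / 2) / (a + D / 2) - (m : ℂ)).re := by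
    rw [Complex.sub_re, Complex.ofReal_re]
  rw [e2]
  refine (Complex.abs_re_le_norm _).trans ?_
  rw [e1, norm_div, div_le_iff₀ hA0]
  have hmn : ‖(m : ℂ)‖ = m := by rw [Complex.norm_real, Real.norm_of_nonneg hm.le]
  have h3 : ‖(m : ℂ) * (ρ - 1) * a‖ ≤ m * (ε / 16) * ‖a‖ := by
    rw [norm_mul, norm_mul, hmn]
    gcongr
  have h4 : ‖(m : ℂ) * (D / 2)‖ ≤ m * (δ * ‖a‖) := by
    rw [norm_mul, hmn]
    gcongr
  have h5 : ‖(m : ℂ) * (ρ - 1) * a + D1 / 2 - m * (D / 2)‖ ≤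
      m * (ε / 16) * ‖a‖ + δ * m * ‖a‖ + m * (δ * ‖a‖) := by
    refine (norm_sub_le _ _).trans (add_le_add ((norm_add_le _ _).trans (add_le_add h3 hD3)) h4)
  refine h5.trans ?_
  have h6 : δ * m * ‖a‖ ≤ ε / 16 * m * ‖a‖ := by gcongr
  have h7 : ε / 4 * m * (15 / 16 * ‖a‖) ≤ ε / 4 * m * ‖a + D / 2‖ := by
    have hε0 : 0 < ε := by linarith
    gcongr
  have h8 : 0 < m * ‖a‖ := by positivity
  nlinarith

/-- **The local theorem.** -/
theorem local_pert {ε : ℝ} (hε : 0 < ε) (hε1 : ε ≤ 1) : ∃ η : ℝ, ∃ n0 : ℕ, 0 < η ∧ 1 ≤ n0 ∧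
    ∀ (n : ℕ) (G P H : ℂ → ℂ), n0 ≤ n → QQ (1 / 2) 18 n η G →
    (∀ z, P (-((starRingEnd ℂ) z)) = (starRingEnd ℂ) (P z)) → DifferentiableOn ℂ P (ball 0 (3 / 2)) →
    (∀ z ∈ ball (0 : ℂ) (3 / 2), ‖P z‖ ≤ Real.exp (-(3 * n)) * ‖G 1‖) →
    (∀ z ∈ ball (0 : ℂ) (3 / 2), H z = G z + P z) →
    (iteratedDeriv n H 0 = 0 → iteratedDeriv (n + 1) H 0 ≠ 0 ∧
      ∃ v1 : ℝ, 0 < v1 ∧ v1 ≤ 1 / 4 ∧ iteratedDeriv n H (I * v1) = 0 ∧
      (∀ v : ℝ, 0 < v → v < v1 → iteratedDeriv n H (I * v) ≠ 0) ∧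
      (1 - ε) * (n * v1) ≤ Real.pi ∧ Real.pi ≤ (1 + ε) * (n * v1)) ∧
    ∃ v2 : ℝ, -((1 + ε) * Real.pi / n) ≤ v2 ∧ v2 ≤ 0 ∧ -(1 / 4) ≤ v2 ∧ iteratedDeriv n H (I * v2) = 0 := by
  obtain ⟨κ1, η1, n1, hκ1, hκ1', hη1, hn1, hrat⟩ := ratio2 lapQ (ε := ε / 16) (by positivity) (by linarith)
    (κ := 1 / 2) (R := 18) (by norm_num) (by norm_num) (by norm_num)
  refine ⟨η1, max n1 (max ⌈16 / ε⌉₊ ⌈8 / κ1⌉₊), hη1, le_max_of_le_left hn1, ?_⟩
  intro n G P H hn hG hPs hPd hPb hH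
  have hnn1 : n1 ≤ n := (le_max_left _ _).trans hn
  have hnε : 16 / ε ≤ n := by
    have : ⌈16 / ε⌉₊ ≤ n := (le_max_left _ _).trans ((le_max_right _ _).trans hn)
    exact (Nat.le_ceil _).trans (by exact_mod_cast this)
  have hnκ : 8 / κ1 ≤ n := by
    have : ⌈8 / κ1⌉₊ ≤ n := (le_max_right _ _).trans ((le_max_right _ _).trans hn)
    exact (Nat.le_ceil _).trans (by exact_mod_cast this)
  have hnpos : (0 : ℝ) < n := by
    have : 0 < n := by omega
    exact_mod_cast this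
  rw [div_le_iff₀ hε] at hnε
  rw [div_le_iff₀ hκ1] at hnκ
  have hk4 : κ1 ≤ 1 / 4 := by linarith
  have hnorm : ∀ v : ℝ, ‖I * (v : ℂ)‖ = |v| := by
    intro v
    rw [norm_mul, Complex.norm_I, one_mul, Complex.norm_real, Real.norm_eq_abs]
  have hfac : (0 : ℝ) < n.factorial := by exact_mod_cast n.factorial_pos
  have hfac1 : ((n + 1).factorial : ℝ) = (n + 1) * n.factorial := by
    rw [Nat.factorial_succ]
    push_cast
    ring
  have hfac1c : ((n + 1).factorial : ℂ) = (n + 1) * n.factorial := by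
    rw [Nat.factorial_succ]
    push_cast
    ring
  -- the derivatives of the sum
  have hsum : ∀ (m : ℕ) (z : ℂ), z ∈ ball (0 : ℂ) (3 / 2) →
      iteratedDeriv m H z = iteratedDeriv m G z + iteratedDeriv m P z := by
    intro m z hz
    have hev : H =ᶠ[𝓝 z] (G + P) := by
      filter_upwards [isOpen_ball.mem_nhds hz] with w hw
      exact hH w hw
    rw [hev.iteratedDeriv_eq m]
    have hGa : ContDiffAt ℂ m G z := hG.diff.analyticAt z |>.contDiffAt
    have hPa : ContDiffAt ℂ m P z :=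
      (hPd.analyticAt (isOpen_ball.mem_nhds hz)).contDiffAt
    rw [iteratedDeriv_add hGa hPa]
  have hmemb : ∀ v : ℝ, |v| < 1 → I * (v : ℂ) ∈ ball (0 : ℂ) (3 / 2) := by
    intro v hv
    rw [mem_ball_zero_iff, hnorm]
    linarith
  -- the formula for all orders
  have hform : ∀ (m : ℕ) (v : ℝ), |v| < 1 → iteratedDeriv m H (I * v) =
      (m.factorial * hc G (m + 1) (I * v) + iteratedDeriv m P (I * v) / 2) +
      (-1) ^ m * conj (m.factorial * hc G (m + 1) (I * v) + iteratedDeriv m P (I * v) / 2) := by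
    intro m v hv
    have h1 := (Pool.Agent.H24R2.DZ.half G m (I * v) hG.diff hG.symm (by rw [hnorm]; exact hv)).1
    have e : -((starRingEnd ℂ) (I * (v : ℂ))) = I * v := by
      rw [map_mul, Complex.conj_ofReal, Complex.conj_I]
      ring
    have hfm : (m.factorial : ℂ) ≠ 0 := by exact_mod_cast m.factorial_ne_zero
    rw [e, div_eq_iff hfm] at h1
    have h2 := symm_iter hPs m v
    rw [hsum m _ (hmemb v hv), h1]
    have h2' : (conj : ℂ → ℂ) (2 : ℂ) = 2 := map_ofNat (starRingEnd ℂ) 2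
    have hcf : (conj : ℂ → ℂ) (m.factorial : ℂ) = m.factorial := map_natCast (starRingEnd ℂ) _
    rw [map_add, map_mul, map_div₀, hcf, h2']
    linear_combination (1 / 2 : ℂ) * h2
  -- the curve
  obtain ⟨A, hA⟩ : ∃ A : ℝ → ℂ, A = fun v : ℝ => n.factorial * hc G (n + 1) (I * v) +
    iteratedDeriv n P (I * v) / 2 := ⟨_, rfl⟩
  obtain ⟨B, hB⟩ : ∃ B : ℝ → ℂ, B = fun v : ℝ => (n + 1).factorial * hc G (n + 2) (I * v) +
    iteratedDeriv (n + 1) P (I * v) / 2 := ⟨_, rfl⟩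
  have hHA : ∀ v : ℝ, |v| < 1 → iteratedDeriv n H (I * v) = A v + (-1) ^ n * conj (A v) := by
    intro v hv
    rw [hform n v hv, hA]
  have hHB : ∀ v : ℝ, |v| < 1 → iteratedDeriv (n + 1) H (I * v) = B v + (-1) ^ (n + 1) * conj (B v) := by
    intro v hv
    rw [hform (n + 1) v hv, hB]
  have hline : ∀ v : ℝ, HasDerivAt (fun v : ℝ => I * (v : ℂ)) I v := by
    intro v
    simpa using (Complex.ofRealCLM.hasDerivAt (x := v)).const_mul I
  have hPdiff : ∀ (m : ℕ) (v : ℝ), |v| < 1 → HasDerivAt (iteratedDeriv m P) (iteratedDeriv (m + 1) P (I * v)) (I * v) := by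
    intro m v hv
    have h1 : DifferentiableAt ℂ (iteratedDeriv m P) (I * v) :=
      (diffOn_iter isOpen_ball hPd m).differentiableAt (isOpen_ball.mem_nhds (hmemb v hv))
    rw [iteratedDeriv_succ]
    exact h1.hasDerivAt
  have hdA : ∀ v : ℝ, |v| < 1 → HasDerivAt A (I * B v) v := by
    intro v hv
    have h1 := (Pool.Agent.H24R2.DZ.half G n (I * v) hG.diff hG.symm (by rw [hnorm]; exact hv)).2
    have h2 := hPdiff n v hv
    have h3 := ((HasDerivAt.comp v h1 (hline v)).const_mul (n.factorial : ℂ)).add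
      ((HasDerivAt.comp v h2 (hline v)).div_const 2)
    rw [hA]
    refine h3.congr_deriv ?_
    rw [hB, hfac1c]
    ring
  have hcB : ∀ v : ℝ, |v| < 1 → ContinuousAt B v := by
    intro v hv
    have h1 := (Pool.Agent.H24R2.DZ.half G (n + 1) (I * v) hG.diff hG.symm (by rw [hnorm]; exact hv)).2
    have h2 := hPdiff (n + 1) v hv
    have h3 := ((HasDerivAt.comp v h1 (hline v)).const_mul ((n + 1).factorial : ℂ)).add
      ((HasDerivAt.comp v h2 (hline v)).div_const 2)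
    rw [hB]
    exact h3.continuousAt
  have hG1 : 0 < ‖G 1‖ := norm_pos_iff.2 (hG.far 1 (by norm_num) (by norm_num)).1
  have hX : ∀ v : ℝ, |v| ≤ κ1 → A v ≠ 0 ∧ |(B v / A v).re - (n + 1)| ≤ ε / 4 * (n + 1) := by
    intro v hv
    obtain ⟨h1, h2, h3⟩ := hrat n G hnn1 hG (I * v) (by rw [hnorm]; exact hv)
    have hcau : ∀ m : ℕ, ‖iteratedDeriv m P (I * v)‖ ≤ m.factorial * (Real.exp (-(3 * n)) * ‖G 1‖) := by
      intro m
      have hsub : closedBall (I * (v : ℂ)) 1 ⊆ ball (0 : ℂ) (3 / 2) := by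
        intro w hw
        rw [mem_closedBall, dist_eq_norm] at hw
        rw [mem_ball_zero_iff]
        have h4 : ‖w‖ ≤ ‖w - I * v‖ + ‖I * (v : ℂ)‖ := by
          have := norm_add_le (w - I * v) (I * (v : ℂ))
          rwa [sub_add_cancel] at this
        rw [hnorm] at h4
        linarith
      have h5 : DiffContOnCl ℂ P (ball (I * (v : ℂ)) 1) := by
        apply DifferentiableOn.diffContOnCl
        rw [closure_ball _ one_ne_zero]
        exact hPd.mono hsub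
      have h6 := Complex.norm_iteratedDeriv_le_of_forall_mem_sphere_norm_le (n := m) one_pos h5
        (C := Real.exp (-(3 * n)) * ‖G 1‖) (fun z hz => hPb z (hsub (sphere_subset_closedBall hz)))
      rw [one_pow, div_one] at h6
      exact h6
    have he2 : Real.exp (-(3 * (n : ℝ))) ≤ 2 * (ε / 16) * Real.exp (-(n : ℝ)) := by
      have h4 : Real.exp (-(3 * (n : ℝ))) = Real.exp (-(2 * n)) * Real.exp (-(n : ℝ)) := by
        rw [← Real.exp_add]
        congr 1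
        ring
      rw [h4]
      apply mul_le_mul_of_nonneg_right _ (Real.exp_pos _).le
      have h5 : (n : ℝ) ≤ Real.exp (2 * n) := by
        have := Real.add_one_le_exp (2 * (n : ℝ))
        linarith
      have h6 : Real.exp (-(2 * (n : ℝ))) = 1 / Real.exp (2 * n) := by
        rw [Real.exp_neg, one_div]
      rw [h6, div_le_iff₀ (Real.exp_pos _)]
      nlinarith
    have hbase : Real.exp (-(3 * (n : ℝ))) * ‖G 1‖ ≤ 2 * (ε / 16) * ‖hc G (n + 1) (I * v)‖ := by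
      calc Real.exp (-(3 * (n : ℝ))) * ‖G 1‖ ≤ (2 * (ε / 16) * Real.exp (-(n : ℝ))) * ‖G 1‖ := by gcongr
        _ = 2 * (ε / 16) * (Real.exp (-(n : ℝ)) * ‖G 1‖) := by ring
        _ ≤ _ := by gcongr
    have hfn : ‖(n.factorial : ℂ)‖ = n.factorial := by simp
    have hres := pert_aux (a := n.factorial * hc G (n + 1) (I * v))
      (b := (n + 1).factorial * hc G (n + 2) (I * v)) (D := iteratedDeriv n P (I * v))
      (D1 := iteratedDeriv (n + 1) P (I * v)) (ρ := hc G (n + 2) (I * v) / hc G (n + 1) (I * v))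
      (m := (n : ℝ) + 1) (δ := ε / 16) (ε := ε) (by positivity) (by positivity) le_rfl hε1
      (mul_ne_zero (by exact_mod_cast n.factorial_ne_zero) h2) (by
        rw [hfac1c]
        push_cast
        field_simp) h3 (by
        rw [norm_mul, hfn]
        calc ‖iteratedDeriv n P (I * v)‖ ≤ n.factorial * (Real.exp (-(3 * n)) * ‖G 1‖) := hcau n
          _ ≤ n.factorial * (2 * (ε / 16) * ‖hc G (n + 1) (I * v)‖) := by gcongr
          _ = _ := by ring) (by
        rw [norm_mul, hfn]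
        calc ‖iteratedDeriv (n + 1) P (I * v)‖ ≤ (n + 1).factorial * (Real.exp (-(3 * n)) * ‖G 1‖) := hcau (n + 1)
          _ ≤ (n + 1).factorial * (2 * (ε / 16) * ‖hc G (n + 1) (I * v)‖) := by gcongr
          _ = _ := by rw [hfac1]; ring)
    rw [hA, hB]
    exact hres
  have hpi4 := Real.pi_lt_four
  have hLe : ε / 4 * ((n : ℝ) + 1) < (n : ℝ) + 1 := by nlinarith
  have hI0 : (I * ((0 : ℝ) : ℂ)) = 0 := by simp
  refine ⟨fun h0 => ⟨fun h1 => ?_, ?_⟩, ?_⟩
  · -- simplicity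
    have hA0 := hHA 0 (by simp)
    have hB0 := hHB 0 (by simp)
    rw [hI0, h0] at hA0
    rw [hI0, h1] at hB0
    obtain ⟨hne, hre⟩ := hX 0 (by rw [abs_zero]; exact hκ1.le)
    have hsq : ((-1 : ℂ) ^ n) * (-1) ^ n = 1 := by
      rw [← mul_pow]
      norm_num
    have hcA : conj (A 0) = -((-1) ^ n * A 0) := by
      linear_combination (-(-1 : ℂ) ^ n) * hA0 - conj (A 0) * hsq
    have hcB' : conj (B 0) = (-1) ^ n * B 0 := by
      have : ((-1 : ℂ)) ^ (n + 1) = -((-1) ^ n) := by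
        rw [pow_succ]
        ring
      rw [this] at hB0
      linear_combination ((-1 : ℂ) ^ n) * hB0 - conj (B 0) * hsq
    have hp : ((-1 : ℂ) ^ n) ≠ 0 := pow_ne_zero _ (by norm_num)
    have hrat0 : conj (B 0 / A 0) = -(B 0 / A 0) := by
      rw [map_div₀, hcA, hcB']
      field_simp
    have hre0 : (B 0 / A 0).re = 0 := by
      have h2 := congrArg Complex.re hrat0
      rw [Complex.conj_re, Complex.neg_re] at h2
      linarith
    rw [hre0, zero_sub, abs_neg, abs_of_pos (by positivity)] at hre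
    linarith
  · have h00 : A 0 + (-1) ^ n * conj (A 0) = 0 := by
      rw [← hHA 0 (by simp), hI0, h0]
    have hmem : ∀ y ∈ Icc (0 : ℝ) (0 + κ1), |y| ≤ κ1 := by
      intro y hy
      rw [abs_of_nonneg hy.1]
      linarith [hy.2]
    obtain ⟨v, hv0', hv1', hv2, hv3, hv4, hv5⟩ := Pool.Agent.Q278.DE.next_zeroG (A := A) (B := B) (y0 := 0)
      (D := κ1) (L := n + 1) (e := ε / 4 * (n + 1)) (ω := (-1) ^ n) hLe hκ1 (by nlinarith)
      (fun y hy => hdA y (by linarith [hmem y hy]))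
      (fun y hy => (hcB y (by linarith [hmem y hy])).continuousWithinAt)
      (fun y hy => hX y (hmem y hy)) h00
    rw [zero_add] at hv1'
    rw [sub_zero] at hv4 hv5
    refine ⟨v, hv0', by linarith, ?_, ?_, ?_, ?_⟩
    · rw [hHA v (by rw [abs_of_pos hv0']; linarith), hv2]
    · intro w hw1 hw2
      rw [hHA w (by rw [abs_of_pos hw1]; linarith)]
      exact hv3 w hw1 hw2
    · have h1 : (1 - ε) * (n * v) ≤ (n + 1 - ε / 4 * (n + 1)) * v := by
        have h2 : (1 - ε) * n ≤ n + 1 - ε / 4 * (n + 1) := by nlinarith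
        calc (1 - ε) * (n * v) = (1 - ε) * n * v := by ring
          _ ≤ _ := by gcongr
      linarith
    · have h1 : (n + 1 + ε / 4 * (n + 1)) * v ≤ (1 + ε) * (n * v) := by
        have h2 : n + 1 + ε / 4 * (n + 1) ≤ (1 + ε) * n := by nlinarith
        calc (n + 1 + ε / 4 * (n + 1)) * v ≤ (1 + ε) * n * v := by gcongr
          _ = _ := by ring
      linarith
  · obtain ⟨D, hD⟩ : ∃ D : ℝ, D = (1 + ε) * Real.pi / n := ⟨_, rfl⟩
    have hDn : D * n = (1 + ε) * Real.pi := by rw [hD]; field_simp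
    have hD0 : 0 < D := by rw [hD]; have := Real.pi_pos; positivity
    have hDκ : D ≤ κ1 := by
      rw [hD, div_le_iff₀ hnpos]
      have : (1 + ε) * Real.pi ≤ 2 * 4 := by
        apply mul_le_mul (by linarith) hpi4.le Real.pi_pos.le (by norm_num)
      linarith
    have hmem : ∀ y ∈ Icc (-D) (-D + D), |y| ≤ κ1 := by
      intro y hy
      rw [abs_le]
      constructor <;> linarith [hy.1, hy.2]
    have hDD : Real.pi ≤ ((n + 1 : ℝ) - ε / 4 * (n + 1)) * D := by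
      have h1 : (1 - ε / 4) * (n * D) ≤ ((n + 1 : ℝ) - ε / 4 * (n + 1)) * D := by
        have h2 : (1 - ε / 4) * n ≤ (n + 1 : ℝ) - ε / 4 * (n + 1) := by nlinarith
        calc (1 - ε / 4) * (n * D) = (1 - ε / 4) * n * D := by ring
          _ ≤ _ := by gcongr
      rw [mul_comm (n : ℝ) D, hDn] at h1
      have h3 := Real.pi_pos
      have h4 : 1 ≤ (1 - ε / 4) * (1 + ε) := by nlinarith
      nlinarith
    obtain ⟨y, hy, hy'⟩ := exists_zero (A := A) (B := B) (y0 := -D) (D := D) (L := n + 1)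
      (e := ε / 4 * (n + 1)) (ω := (-1) ^ n) (neg_one_pow_eq_or ℂ n) hD0 hDD
      (fun y hy => hdA y (by linarith [hmem y hy]))
      (fun y hy => (hcB y (by linarith [hmem y hy])).continuousWithinAt)
      (fun y hy => hX y (hmem y hy))
    have hyk := hmem y hy
    have hy2 := hy.2
    rw [neg_add_cancel] at hy2
    refine ⟨y, by rw [← hD]; exact hy.1, hy2, ?_, ?_⟩
    · have := (abs_le.1 hyk).1
      linarith
    · rw [hHA y (by linarith), hy']

end Pool.Agent.Q278.DH
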