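import Pool.Agent.W571.SD.SB1

set_option autoImplicit false

/-!
# The normalised situation with an exponential factor
-/

namespace Pool.Agent.Q278.DH

open Complex Filter Topology MeasureTheory Set Metric
open Pool.Agent.H24R2.DZ (NN)
open Pool.Agent.H986R2.K4 (QQ)
open Pool.Agent.W571.SD (nn_grow mid_bound)

theorem nyI {y : ℝ} (hy : |y| ≤ 1 / 100) : ‖(y : ℂ) * I‖ ≤ 1 / 100 := by
  rw [norm_mul, Complex.norm_I, mul_one, Complex.norm_real, Real.norm_eq_abs]; exact hy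

theorem norm_ex (β : ℝ) (w : ℂ) : ‖cexp (-(I * β * w))‖ = Real.exp (β * w.im) := by
  rw [Complex.norm_exp]
  congr 1
  simp

theorem norm_ex_le {β R : ℝ} {w : ℂ} (hw : ‖w‖ ≤ R) : ‖cexp (-(I * β * w))‖ ≤ Real.exp (|β| * R) := by
  rw [norm_ex]
  apply Real.exp_le_exp.2
  have h1 : |w.im| ≤ R := (Complex.abs_im_le_norm w).trans hw
  calc β * w.im ≤ |β * w.im| := le_abs_self _
    _ = |β| * |w.im| := abs_mul _ _
    _ ≤ _ := by gcongr

theorem toQQ' {n : ℕ} {η η' : ℝ} {F : ℂ → ℂ} (hη : 0 ≤ η) (hη1 : η ≤ 1 / 200) (hη' : 2 * η ≤ η')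
    (hN : NN n η F) (y : ℝ) (hy : |y| ≤ 1 / 100) (β : ℝ) (hβ : |β| ≤ η * n) :
    QQ (1 / 2) 18 n η' (fun z => F (z + (y : ℂ) * I) * cexp (-(I * β * (z + (y : ℂ) * I)))) := by
  have hn0 : (0 : ℝ) ≤ n := Nat.cast_nonneg n
  have hyI := nyI hy
  have hβn : |β| ≤ 1 / 200 * n := hβ.trans (mul_le_mul_of_nonneg_right hη1 hn0)
  have hre : ∀ z : ℂ, (z + (y : ℂ) * I).re = z.re := by
    intro z; simp
  refine ⟨?_, ?_, ?_, ?_⟩
  · exact (hN.diff.comp (differentiable_id.add_const _)).mul (by fun_prop)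
  · intro z
    have h0 : -((starRingEnd ℂ) z) + (y : ℂ) * I = -((starRingEnd ℂ) (z + (y : ℂ) * I)) := by
      rw [map_add, map_mul, Complex.conj_I, Complex.conj_ofReal]; ring
    show F (-((starRingEnd ℂ) z) + (y : ℂ) * I) * cexp (-(I * β * (-((starRingEnd ℂ) z) + (y : ℂ) * I))) =
      (starRingEnd ℂ) (F (z + (y : ℂ) * I) * cexp (-(I * β * (z + (y : ℂ) * I))))
    rw [h0, hN.symm, map_mul, ← Complex.exp_conj]
    congr 2
    rw [map_neg, map_mul, map_mul, Complex.conj_I, Complex.conj_ofReal]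
    ring
  · intro z h1 h2
    have h3 : ‖z + (y : ℂ) * I‖ ≤ 20 := (norm_add_le _ _).trans (by linarith)
    have h4 := hN.far (z + (y : ℂ) * I) (by rw [hre]; linarith) h3
    refine ⟨mul_ne_zero h4.1 (Complex.exp_ne_zero _), ?_⟩
    have hd1 : HasDerivAt (fun z => F (z + (y : ℂ) * I)) (deriv F (z + (y : ℂ) * I)) z := by
      have h5 : HasDerivAt F (deriv F (z + (y : ℂ) * I)) (z + (y : ℂ) * I) := (hN.diff _).hasDerivAt
      have h6 : HasDerivAt (fun z : ℂ => z + (y : ℂ) * I) 1 z := (hasDerivAt_id z).add_const _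
      exact (HasDerivAt.comp z h5 h6).congr_deriv (mul_one _)
    have hd2 : HasDerivAt (fun z : ℂ => cexp (-(I * β * (z + (y : ℂ) * I))))
        (cexp (-(I * β * (z + (y : ℂ) * I))) * (-(I * β))) z := by
      have h6 : HasDerivAt (fun z : ℂ => -(I * β * (z + (y : ℂ) * I))) (-(I * β)) z := by
        have h7 : HasDerivAt (fun z : ℂ => z + (y : ℂ) * I) 1 z := (hasDerivAt_id z).add_const _
        exact ((h7.const_mul (I * (β : ℂ))).neg).congr_deriv (by ring)
      exact h6.cexp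
    have h5 : logDeriv (fun z => F (z + (y : ℂ) * I) * cexp (-(I * β * (z + (y : ℂ) * I)))) z =
        logDeriv F (z + (y : ℂ) * I) - I * β := by
      have h10 : deriv (fun z => F (z + (y : ℂ) * I) * cexp (-(I * β * (z + (y : ℂ) * I)))) z = _ :=
        (hd1.mul hd2).deriv
      rw [logDeriv_apply, h10, logDeriv_apply]
      have h8 := h4.1
      have h9 := Complex.exp_ne_zero (-(I * β * (z + (y : ℂ) * I)))
      field_simp
      ring
    rw [h5]
    have h6 := h4.2
    push_cast at h6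
    have e : logDeriv F (z + (y : ℂ) * I) - I * β - n = (logDeriv F (z + (y : ℂ) * I) - n) - I * β := by ring
    rw [e]
    refine (norm_sub_le _ _).trans ?_
    have h7 : ‖I * (β : ℂ)‖ = |β| := by
      rw [norm_mul, Complex.norm_I, one_mul, Complex.norm_real, Real.norm_eq_abs]
    rw [h7]
    have h8 : 2 * η * n ≤ η' * n := mul_le_mul_of_nonneg_right hη' hn0
    linarith
  · intro z h1 h2
    show ‖F (z + (y : ℂ) * I) * cexp (-(I * β * (z + (y : ℂ) * I)))‖ ≤
      ‖F (1 + (y : ℂ) * I) * cexp (-(I * β * (1 + (y : ℂ) * I)))‖ * Real.exp (-(1 / 2 / 2 * n))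
    have h3 := mid_bound hη hη1 hN (z + (y : ℂ) * I) (by rw [hre]; linarith)
      ((norm_add_le _ _).trans (by linarith))
    have h4 := nn_grow hN (a := 1 + (y : ℂ) * I) (b := 1) (by rw [hre]; norm_num) (by norm_num)
      ((norm_add_le _ _).trans (by rw [norm_one]; linarith)) (by simp)
    have h5 : (1 - (1 + (y : ℂ) * I)).re = 0 := by simp
    have h6 : ‖(1 : ℂ) - (1 + (y : ℂ) * I)‖ ≤ 1 / 100 := by
      have : (1 : ℂ) - (1 + (y : ℂ) * I) = -((y : ℂ) * I) := by ring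
      rw [this, norm_neg]; exact hyI
    rw [h5, mul_zero, zero_add] at h4
    have h7 : η * n * ‖(1 : ℂ) - (1 + (y : ℂ) * I)‖ ≤ 1 / 200 * n * (1 / 100) := by
      apply mul_le_mul _ h6 (norm_nonneg _) (by positivity)
      exact mul_le_mul_of_nonneg_right hη1 hn0
    have h8 : ‖cexp (-(I * β * (z + (y : ℂ) * I)))‖ ≤ Real.exp (|β| * 19) :=
      norm_ex_le ((norm_add_le _ _).trans (by linarith))
    have h9 : Real.exp (-(|β| * 1)) ≤ ‖cexp (-(I * β * (1 + (y : ℂ) * I)))‖ := by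
      rw [norm_ex]
      apply Real.exp_le_exp.2
      have e : (1 + (y : ℂ) * I).im = y := by simp
      rw [e]
      have h10 : |β * y| ≤ |β| * 1 := by
        rw [abs_mul]
        gcongr
        linarith
      exact (abs_le.1 h10).1
    rw [norm_mul, norm_mul]
    calc ‖F (z + (y : ℂ) * I)‖ * ‖cexp (-(I * β * (z + (y : ℂ) * I)))‖
        ≤ (‖F 1‖ * Real.exp (-(2 / 5 * n))) * Real.exp (|β| * 19) := by
          apply mul_le_mul h3 h8 (norm_nonneg _) (by positivity)
      _ ≤ ((‖F (1 + (y : ℂ) * I)‖ * Real.exp (1 / 200 * n * (1 / 100))) * Real.exp (-(2 / 5 * n))) *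
            Real.exp (|β| * 19) := by
          apply mul_le_mul_of_nonneg_right _ (Real.exp_pos _).le
          apply mul_le_mul_of_nonneg_right _ (Real.exp_pos _).le
          exact h4.trans (mul_le_mul_of_nonneg_left (Real.exp_le_exp.2 h7) (norm_nonneg _))
      _ = ‖F (1 + (y : ℂ) * I)‖ * Real.exp (-(|β| * 1)) *
            Real.exp (1 / 200 * n * (1 / 100) + -(2 / 5 * n) + |β| * 20) := by
          rw [mul_assoc, mul_assoc, mul_assoc, mul_assoc, ← Real.exp_add, ← Real.exp_add, ← Real.exp_add]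
          congr 2
          ring
      _ ≤ ‖F (1 + (y : ℂ) * I)‖ * ‖cexp (-(I * β * (1 + (y : ℂ) * I)))‖ * Real.exp (-(1 / 2 / 2 * n)) := by
          apply mul_le_mul _ (Real.exp_le_exp.2 _) (Real.exp_pos _).le (by positivity)
          · exact mul_le_mul_of_nonneg_left h9 (norm_nonneg _)
          · linarith

/-- growth on the ball of radius `2` -/
theorem ball_bound {n : ℕ} {η : ℝ} {F : ℂ → ℂ} (hη : 0 ≤ η) (hη1 : η ≤ 1 / 200) (hN : NN n η F)
    (w : ℂ) (hw : ‖w‖ ≤ 8 / 5) : ‖F w‖ ≤ ‖F 1‖ * Real.exp (7 / 10 * n) := by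
  have hn0 : (0 : ℝ) ≤ n := Nat.cast_nonneg n
  have key : ∀ w : ℂ, 1 / 2 ≤ w.re → ‖w‖ ≤ 8 / 5 → ‖F w‖ ≤ ‖F 1‖ * Real.exp (7 / 10 * n) := by
    intro w h1 h3
    have h4 := nn_grow hN (a := 1) (b := w) (by norm_num) (by linarith) (by simp) (by linarith)
    refine h4.trans (mul_le_mul_of_nonneg_left (Real.exp_le_exp.2 ?_) (norm_nonneg _))
    have h5 : (w - 1).re ≤ 3 / 5 := by
      rw [Complex.sub_re, Complex.one_re]
      have := (abs_le.1 ((Complex.abs_re_le_norm w).trans h3)).2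
      linarith
    have h6 : ‖w - 1‖ ≤ 3 := by
      refine (norm_sub_le _ _).trans ?_
      rw [norm_one]; linarith
    have h7 : (n : ℝ) * (w - 1).re ≤ n * (3 / 5) := mul_le_mul_of_nonneg_left h5 hn0
    have h8 : η * n * ‖w - 1‖ ≤ (1 / 200) * n * 3 := by
      apply mul_le_mul _ h6 (norm_nonneg _) (by positivity)
      exact mul_le_mul_of_nonneg_right hη1 hn0
    linarith
  by_cases h0 : |w.re| ≤ 1 / 2
  · refine (mid_bound hη hη1 hN w h0 (by linarith)).trans ?_
    apply mul_le_mul_of_nonneg_left (Real.exp_le_exp.2 _) (norm_nonneg _)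
    linarith
  · push Not at h0
    rcases le_total 0 w.re with hs | hs
    · rw [abs_of_nonneg hs] at h0
      exact key w h0.le hw
    · rw [abs_of_nonpos hs] at h0
      have h1 := key (-((starRingEnd ℂ) w)) (by simpa using h0.le)
        (by rw [norm_neg, RCLike.norm_conj]; exact hw)
      rw [hN.symm, RCLike.norm_conj] at h1
      exact h1

theorem small_pert {n : ℕ} {η s : ℝ} {F R : ℂ → ℂ} (hη : 0 ≤ η) (hη1 : η ≤ 1 / 200)
    (hN : NN n η F) (y : ℝ) (hy : |y| ≤ 1 / 100) (β : ℝ) (hβ : |β| ≤ η * n)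
    (hs0 : 0 ≤ s) (hs : 4 * s * Real.exp (4 * n) ≤ 1) (hR : ∀ w : ℂ, ‖w‖ ≤ 8 / 5 → ‖R w - I * β * w‖ ≤ s * ‖w‖) :
    ∀ z ∈ ball (0 : ℂ) (3 / 2), ‖F (z + (y : ℂ) * I) * cexp (-(R (z + (y : ℂ) * I))) -
      F (z + (y : ℂ) * I) * cexp (-(I * β * (z + (y : ℂ) * I)))‖ ≤
      Real.exp (-(3 * n)) * ‖F (1 + (y : ℂ) * I) * cexp (-(I * β * (1 + (y : ℂ) * I)))‖ := by
  intro z hz
  rw [mem_ball_zero_iff] at hz
  have hn0 : (0 : ℝ) ≤ n := Nat.cast_nonneg n
  have hyI := nyI hy
  have hβn : |β| ≤ 1 / 200 * n := hβ.trans (mul_le_mul_of_nonneg_right hη1 hn0)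
  obtain ⟨w, hw⟩ : ∃ w : ℂ, w = z + (y : ℂ) * I := ⟨_, rfl⟩
  have hwn : ‖w‖ ≤ 8 / 5 := by
    rw [hw]
    exact (norm_add_le _ _).trans (by linarith)
  rw [← hw]
  have he4 : 1 ≤ Real.exp (4 * (n : ℝ)) := by
    rw [← Real.exp_zero]
    exact Real.exp_le_exp.2 (by positivity)
  have hs1 : 4 * s ≤ 1 := by nlinarith
  have h1 : ‖R w - I * β * w‖ ≤ 2 * s := (hR w hwn).trans (by nlinarith)
  have h2 : ‖cexp (-(R w - I * β * w)) - 1‖ ≤ 2 * (2 * s) := by
    have h3 : ‖-(R w - I * β * w)‖ ≤ 1 := by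
      rw [norm_neg]
      linarith
    refine (Complex.norm_exp_sub_one_le h3).trans ?_
    rw [norm_neg]
    linarith
  have e1 : F w * cexp (-(R w)) - F w * cexp (-(I * β * w)) =
      F w * cexp (-(I * β * w)) * (cexp (-(R w - I * β * w)) - 1) := by
    have : cexp (-(R w)) = cexp (-(I * β * w)) * cexp (-(R w - I * β * w)) := by
      rw [← Complex.exp_add]
      congr 1
      ring
    rw [this]
    ring
  rw [e1, norm_mul, norm_mul, norm_mul]
  have h4 := ball_bound hη hη1 hN w hwn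
  have h5 : ‖cexp (-(I * β * w))‖ ≤ Real.exp (|β| * 2) := norm_ex_le (hwn.trans (by norm_num))
  have h9 : Real.exp (-(|β| * 1)) ≤ ‖cexp (-(I * β * (1 + (y : ℂ) * I)))‖ := by
    rw [norm_ex]
    apply Real.exp_le_exp.2
    have e : (1 + (y : ℂ) * I).im = y := by simp
    rw [e]
    have h10 : |β * y| ≤ |β| * 1 := by
      rw [abs_mul]
      gcongr
      linarith
    exact (abs_le.1 h10).1
  have h6 := nn_grow hN (a := 1 + (y : ℂ) * I) (b := 1) (by simp; norm_num) (by norm_num)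
    ((norm_add_le _ _).trans (by rw [norm_one]; linarith)) (by simp)
  have h7 : (1 - (1 + (y : ℂ) * I)).re = 0 := by simp
  have h8 : ‖(1 : ℂ) - (1 + (y : ℂ) * I)‖ ≤ 1 / 100 := by
    have : (1 : ℂ) - (1 + (y : ℂ) * I) = -((y : ℂ) * I) := by ring
    rw [this, norm_neg]; exact hyI
  rw [h7, mul_zero, zero_add] at h6
  have h10 : η * n * ‖(1 : ℂ) - (1 + (y : ℂ) * I)‖ ≤ 1 / 200 * n * (1 / 100) := by
    apply mul_le_mul _ h8 (norm_nonneg _) (by positivity)
    exact mul_le_mul_of_nonneg_right hη1 hn0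
  have h11 : ‖F 1‖ ≤ ‖F (1 + (y : ℂ) * I)‖ * Real.exp (1 / 200 * n * (1 / 100)) :=
    h6.trans (mul_le_mul_of_nonneg_left (Real.exp_le_exp.2 h10) (norm_nonneg _))
  calc ‖F w‖ * ‖cexp (-(I * β * w))‖ * ‖cexp (-(R w - I * β * w)) - 1‖
      ≤ (‖F (1 + (y : ℂ) * I)‖ * Real.exp (1 / 200 * n * (1 / 100))) * Real.exp (7 / 10 * n) *
          Real.exp (|β| * 2) * (2 * (2 * s)) := by
        apply mul_le_mul _ h2 (norm_nonneg _) (by positivity)
        apply mul_le_mul _ h5 (norm_nonneg _) (by positivity)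
        exact h4.trans (mul_le_mul_of_nonneg_right h11 (Real.exp_pos _).le)
    _ = ‖F (1 + (y : ℂ) * I)‖ * Real.exp (-(|β| * 1)) *
          (4 * s * Real.exp (1 / 200 * n * (1 / 100) + 7 / 10 * n + |β| * 3)) := by
        have : Real.exp (1 / 200 * n * (1 / 100) + 7 / 10 * n + |β| * 3) =
          Real.exp (1 / 200 * n * (1 / 100)) * Real.exp (7 / 10 * n) * Real.exp (|β| * 2) * Real.exp (|β| * 1) := by
          rw [← Real.exp_add, ← Real.exp_add, ← Real.exp_add]
          congr 1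
          ring
        rw [this]
        have h12 : Real.exp (-(|β| * 1)) * Real.exp (|β| * 1) = 1 := by
          rw [← Real.exp_add, neg_add_cancel, Real.exp_zero]
        linear_combination (-(‖F (1 + (y : ℂ) * I)‖ * Real.exp (1 / 200 * n * (1 / 100)) * Real.exp (7 / 10 * n) *
          Real.exp (|β| * 2) * 4 * s)) * h12
    _ ≤ ‖F (1 + (y : ℂ) * I)‖ * ‖cexp (-(I * β * (1 + (y : ℂ) * I)))‖ * Real.exp (-(3 * n)) := by
        apply mul_le_mul _ _ (by positivity) (by positivity)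
        · exact mul_le_mul_of_nonneg_left h9 (norm_nonneg _)
        · calc 4 * s * Real.exp (1 / 200 * n * (1 / 100) + 7 / 10 * n + |β| * 3)
              ≤ 4 * s * Real.exp (4 * n + -(3 * n)) := by
                apply mul_le_mul_of_nonneg_left (Real.exp_le_exp.2 _) (by positivity)
                linarith
            _ = 4 * s * Real.exp (4 * n) * Real.exp (-(3 * n)) := by
                rw [Real.exp_add]
                ring
            _ ≤ 1 * Real.exp (-(3 * n)) := mul_le_mul_of_nonneg_right hs (Real.exp_pos _).le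
            _ = _ := one_mul _
    _ = _ := by ring

end Pool.Agent.Q278.DH
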