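import Pool.Agent.Q278.DH.D
import Pool.Agent.Q278.DH.E
import Pool.Agent.Q278.DE.D

set_option autoImplicit false

/-!
# The derivatives of Hardy's function at good heights
-/

namespace Pool.Agent.Q278.DH

open Complex Filter Topology MeasureTheory Set Metric
open Pool.Agent.H24R2.JP (XX HH)
open Pool.Agent.H24R2.DZ (NN ra)
open Pool.Agent.H986R2.K4 (QQ)
open Pool.Agent.Q278.DE (GH nice_aux)
open Pool.Agent.W571.SD (ra_eq)

/-- simple, and followed by the next zero at the expected distance -/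
def Regular (n : ℕ) (η t : ℝ) : Prop :=
  iteratedDeriv (n + 1) Z t ≠ 0 ∧ ∃ t1 : ℝ, t < t1 ∧ iteratedDeriv n Z t1 = 0 ∧
    (∀ u : ℝ, t < u → u < t1 → iteratedDeriv n Z u ≠ 0) ∧ |(t1 - t) * Real.log t / (2 * Real.pi) - 1| ≤ η

theorem nice_Z {η : ℝ} (hη0 : 0 < η) (hη1 : η ≤ 1) : ∃ η' T0 : ℝ, ∃ n0 : ℕ, 0 < η' ∧ 800 ≤ T0 ∧ 1 ≤ n0 ∧
    ∀ (T : ℝ) (n : ℕ) (t : ℝ), T0 ≤ T → n0 ≤ n → (n : ℝ) ≤ Real.log T / 400 → T < t → t ≤ 2 * T →
    GH η' T n 0 t → (iteratedDeriv n Z t = 0 → Regular n η t) ∧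
      ∃ t2 : ℝ, t - (1 + η) * (2 * Real.pi / Real.log T) ≤ t2 ∧ t2 ≤ t ∧ iteratedDeriv n Z t2 = 0 := by
  obtain ⟨ηL, nL, hηL, hnL, hloc⟩ := local_pert (ε := η / 4) (by positivity) (by linarith)
  obtain ⟨K, hK, hrep⟩ := local_rep
  obtain ⟨η', hη'⟩ : ∃ η' : ℝ, η' = min (ηL / 2) (1 / 200) := ⟨_, rfl⟩
  have hη'0 : 0 < η' := by rw [hη']; exact lt_min (by positivity) (by norm_num)
  have hη'1 : η' ≤ 1 / 200 := by rw [hη']; exact min_le_right _ _
  have hη'2 : 2 * η' ≤ ηL := by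
    have : η' ≤ ηL / 2 := by rw [hη']; exact min_le_left _ _
    linarith
  refine ⟨η', max 800 (Real.exp (8000 * K + 2 * K / η' + 400)), max nL ⌈1 / η⌉₊, hη'0, le_max_left _ _,
    le_max_of_le_left hnL, ?_⟩
  intro T n t hT hn hnT ht1 ht2 hGH
  have hT800 : 800 ≤ T := (le_max_left _ _).trans hT
  have hT0 : 0 < T := by linarith
  have hnn : nL ≤ n := (le_max_left _ _).trans hn
  have hnη : 1 / η ≤ n := by
    have : ⌈1 / η⌉₊ ≤ n := (le_max_right _ _).trans hn
    exact (Nat.le_ceil _).trans (by exact_mod_cast this)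
  rw [div_le_iff₀ hη0] at hnη
  have hnpos : (0 : ℝ) < n := by
    have : 0 < n := by omega
    exact_mod_cast this
  obtain ⟨l, hl⟩ : ∃ l : ℝ, l = Real.log T := ⟨_, rfl⟩
  rw [← hl] at hnT ⊢
  have hlbig : 8000 * K + 2 * K / η' + 400 ≤ l := by
    rw [hl, Real.le_log_iff_exp_le hT0]
    exact (le_max_right _ _).trans hT
  have hKη : 0 < 2 * K / η' := by positivity
  have hl0 : 0 < l := by linarith
  have hl1 : 8000 * K ≤ l := by linarith
  have hl2 : 2 * K / η' ≤ l := by linarith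
  rw [div_le_iff₀ hη'0] at hl2
  obtain ⟨t', ht', hN'⟩ := hGH
  obtain ⟨r0, hr0⟩ : ∃ r0 : ℝ, r0 = ra T (2 ^ 0 * n) := ⟨_, rfl⟩
  have hr0e : r0 = 2 * n / l := by
    rw [hr0, ra_eq, hl]
    ring
  have hr0p : 0 < r0 := by rw [hr0e]; positivity
  have hr0s : r0 ≤ 1 / 200 := by
    rw [hr0e, div_le_iff₀ hl0]
    linarith
  rw [← hr0] at ht' hN'
  rw [pow_zero, one_mul] at hN'
  have htt := abs_le.1 ht'
  have ht'1 : T / 2 ≤ t' := by linarith
  have ht'400 : 400 ≤ t' := by linarith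
  have ht'0 : 0 < t' := by linarith
  obtain ⟨Q, b, hQ0, hb, hQs, hQd, hQb, hQZ⟩ := hrep t' ht'400
  obtain ⟨y, hy⟩ : ∃ y : ℝ, y = (t - t') / r0 := ⟨_, rfl⟩
  have hye : t' + r0 * y = t := by rw [hy]; field_simp; ring
  have hyb : |y| ≤ 1 / 100 := by
    rw [hy, abs_div, abs_of_pos hr0p, div_le_iff₀ hr0p]
    linarith
  obtain ⟨β, hβ⟩ : ∃ β : ℝ, β = b * r0 := ⟨_, rfl⟩
  have hβn : |β| ≤ η' * n := by
    rw [hβ, abs_mul, abs_of_pos hr0p]
    calc |b| * r0 ≤ K * r0 := mul_le_mul_of_nonneg_right hb hr0p.le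
      _ = 2 * K * n / l := by rw [hr0e]; ring
      _ ≤ η' * n := by
        rw [div_le_iff₀ hl0]
        have := mul_le_mul_of_nonneg_right hl2 hnpos.le
        linarith
  obtain ⟨s, hs⟩ : ∃ s : ℝ, s = 500 * K / t' * r0 := ⟨_, rfl⟩
  have hs0 : 0 ≤ s := by rw [hs]; positivity
  have hsb : 4 * s * Real.exp (4 * n) ≤ 1 := by
    have h1 : s ≤ 1000 * K / T := by
      rw [hs]
      calc 500 * K / t' * r0 ≤ 500 * K / (T / 2) * 1 := by
            apply mul_le_mul _ (by linarith) hr0p.le (by positivity)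
            gcongr
        _ = 1000 * K / T := by field_simp; ring
    have h2 : Real.exp (4 * n) ≤ Real.exp (l / 2) := Real.exp_le_exp.2 (by linarith)
    have h3 : 4000 * K ≤ Real.exp (l / 2) := by
      have := Real.add_one_le_exp (l / 2)
      linarith
    have h4 : T = Real.exp (l / 2) * Real.exp (l / 2) := by
      rw [← Real.exp_add, add_halves, hl, Real.exp_log hT0]
    have he := Real.exp_pos (l / 2)
    calc 4 * s * Real.exp (4 * n) ≤ 4 * (1000 * K / T) * Real.exp (l / 2) := by gcongr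
      _ = 4000 * K * Real.exp (l / 2) / T := by ring
      _ ≤ Real.exp (l / 2) * Real.exp (l / 2) / T := by gcongr
      _ = 1 := by rw [← h4, div_self hT0.ne']
  obtain ⟨F, hF⟩ : ∃ F : ℂ → ℂ, F = fun z => XX (I * t' + r0 * z) := ⟨_, rfl⟩
  have hNF : NN n η' F := by rw [hF]; exact hN'
  obtain ⟨R, hR⟩ : ∃ R : ℂ → ℂ, R = fun z => Q (r0 * z) := ⟨_, rfl⟩
  have hr0n : ‖(r0 : ℂ)‖ = r0 := by rw [Complex.norm_real, Real.norm_of_nonneg hr0p.le]
  have hRb : ∀ w : ℂ, ‖w‖ ≤ 8 / 5 → ‖R w - I * β * w‖ ≤ s * ‖w‖ := by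
    intro w hw
    have h1 : ‖(r0 : ℂ) * w‖ = r0 * ‖w‖ := by rw [norm_mul, hr0n]
    have h2 := hQb (r0 * w) (by
      rw [h1]
      nlinarith [norm_nonneg w])
    rw [h1] at h2
    have e : I * (β : ℂ) * w = I * b * (r0 * w) := by
      rw [hβ]
      push_cast
      ring
    rw [hR, e]
    refine h2.trans (le_of_eq ?_)
    rw [hs]
    ring
  obtain ⟨G, hG⟩ : ∃ G : ℂ → ℂ, G = fun z => F (z + (y : ℂ) * I) * cexp (-(I * β * (z + (y : ℂ) * I))) := ⟨_, rfl⟩
  obtain ⟨H, hH⟩ : ∃ H : ℂ → ℂ, H = fun z => F (z + (y : ℂ) * I) * cexp (-(R (z + (y : ℂ) * I))) := ⟨_, rfl⟩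
  have hQQ : QQ (1 / 2) 18 n ηL G := by
    rw [hG]
    exact toQQ' hη'0.le hη'1 hη'2 hNF y hyb β hβn
  have hyI := nyI hyb
  have hHs : ∀ z, H (-((starRingEnd ℂ) z)) = (starRingEnd ℂ) (H z) := by
    intro z
    have h0 : -((starRingEnd ℂ) z) + (y : ℂ) * I = -((starRingEnd ℂ) (z + (y : ℂ) * I)) := by
      rw [map_add, map_mul, Complex.conj_I, Complex.conj_ofReal]; ring
    have h1 : (r0 : ℂ) * -((starRingEnd ℂ) (z + (y : ℂ) * I)) =
        -((starRingEnd ℂ) ((r0 : ℂ) * (z + (y : ℂ) * I))) := by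
      rw [map_mul, Complex.conj_ofReal]
      ring
    rw [hH]
    simp only
    rw [h0, hNF.symm, map_mul, ← Complex.exp_conj]
    congr 2
    rw [hR]
    simp only
    rw [h1, hQs, map_neg]
  have hHd : DifferentiableOn ℂ H (ball 0 (3 / 2)) := by
    intro z hz
    rw [mem_ball_zero_iff] at hz
    have h1 : ‖(r0 : ℂ) * (z + (y : ℂ) * I)‖ < t' / 4 := by
      rw [norm_mul, hr0n]
      have h2 : ‖z + (y : ℂ) * I‖ ≤ 2 := (norm_add_le _ _).trans (by linarith)
      nlinarith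
    have h3 : DifferentiableAt ℂ (fun z : ℂ => Q ((r0 : ℂ) * (z + (y : ℂ) * I))) z :=
      DifferentiableAt.comp z (hQd _ h1).1 (by fun_prop)
    have h4 : DifferentiableAt ℂ (fun z : ℂ => F (z + (y : ℂ) * I)) z :=
      DifferentiableAt.comp z (hNF.diff _) (by fun_prop)
    rw [hH, hR]
    exact (h4.mul h3.neg.cexp).differentiableWithinAt
  have hmain := hloc n G (fun z => H z - G z) H hnn hQQ
    (fun z => by
      show H (-((starRingEnd ℂ) z)) - G (-((starRingEnd ℂ) z)) = (starRingEnd ℂ) (H z - G z)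
      rw [hHs, hQQ.symm, map_sub])
    (hHd.sub hQQ.diff.differentiableOn)
    (fun z hz => by
      have h := small_pert (R := R) hη'0.le hη'1 hNF y hyb β hβn hs0 hsb hRb z hz
      rw [hG, hH]
      exact h)
    (fun z _ => by ring)
  -- transfer to `Z`
  obtain ⟨g, hg⟩ : ∃ g : ℂ → ℂ, g = fun w => XX (I * t' + w) * cexp (-(Q w)) := ⟨_, rfl⟩
  have hgd : DifferentiableOn ℂ g (ball 0 (t' / 4)) := by
    intro w hw
    rw [mem_ball_zero_iff] at hw
    have h1 : DifferentiableAt ℂ (fun w => XX (I * t' + w)) w :=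
      DifferentiableAt.comp w (W327.SD.XX_diff _) (by fun_prop)
    rw [hg]
    exact (h1.mul (hQd w hw).1.neg.cexp).differentiableWithinAt
  have hreal := fun m => real_iter (f := Z) (g := g) (c := -(1 / (‖HH (I * t')‖ : ℂ))) hgd
    (by rw [hg]; exact hQZ) m
  have hHHn : (‖HH (I * t')‖ : ℂ) ≠ 0 := by
    have h0 := Pool.Agent.H24R2.JP.StirAux.HH_ne (z := I * t') (by simpa using ht'0)
    exact_mod_cast (norm_pos_iff.2 h0).ne'
  have hc0 : -(1 / (‖HH (I * t')‖ : ℂ)) ≠ 0 := neg_ne_zero.2 (one_div_ne_zero hHHn)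
  have hr0c : (r0 : ℂ) ≠ 0 := by exact_mod_cast hr0p.ne'
  have hkey : ∀ (m : ℕ) (v : ℝ), |v| ≤ 1 / 4 →
      (iteratedDeriv m Z (t + r0 * v) = 0 ↔ iteratedDeriv m H (I * v) = 0) := by
    intro m v hv
    have h1 : |r0 * (v + y)| < t' / 4 := by
      rw [abs_mul, abs_of_pos hr0p]
      have h2 : |v + y| ≤ 1 := (abs_add_le _ _).trans (by linarith)
      nlinarith
    have h2 := hreal m (r0 * (v + y)) h1
    have e1 : t' + r0 * (v + y) = t + r0 * v := by rw [← hye]; ring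
    rw [e1] at h2
    have e2 : H = fun z => (fun z' => g ((r0 : ℂ) * z')) (z + (y : ℂ) * I) := by
      rw [hH, hF, hR, hg]
    have h3 : iteratedDeriv m H (I * v) = (r0 : ℂ) ^ m * iteratedDeriv m g (I * ((r0 * (v + y) : ℝ) : ℂ)) := by
      rw [e2, iter_add (fun z' => g ((r0 : ℂ) * z')), iter_mul]
      congr 2
      push_cast
      ring
    rw [h2, h3]
    simp only [mul_eq_zero, pow_eq_zero_iff', hc0, I_ne_zero, hr0c, false_and, false_or, ne_eq]
  have hk0 : ∀ m : ℕ, iteratedDeriv m Z t = 0 ↔ iteratedDeriv m H 0 = 0 := by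
    intro m
    have h := hkey m 0 (by simp)
    simpa using h
  have hnv : ∀ d : ℝ, n * (d / r0) = l / 2 * d := by
    intro d
    rw [hr0e]
    field_simp
  refine ⟨fun h0 => ?_, ?_⟩
  · obtain ⟨hs1, v1, hv0, hv4, hv1, hv2, hv3, hv5⟩ := hmain.1 ((hk0 n).1 h0)
    refine ⟨fun h => hs1 ((hk0 (n + 1)).1 h), t + r0 * v1, ?_, ?_, ?_, ?_⟩
    · have := mul_pos hr0p hv0
      linarith
    · exact (hkey n v1 (by rw [abs_of_pos hv0]; exact hv4)).2 hv1
    · intro u hu1 hu2 hu3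
      obtain ⟨v, hv⟩ : ∃ v : ℝ, v = (u - t) / r0 := ⟨_, rfl⟩
      have hue : t + r0 * v = u := by rw [hv]; field_simp; ring
      have h1 : 0 < v := by rw [hv]; exact div_pos (by linarith) hr0p
      have h2 : v < v1 := by
        rw [hv, div_lt_iff₀ hr0p]
        linarith
      apply hv2 v h1 h2
      rw [← hkey n v (by rw [abs_of_pos h1]; linarith), hue]
      exact hu3
    · have hd0 : 0 < r0 * v1 := mul_pos hr0p hv0
      have e1 : n * v1 = l / 2 * (r0 * v1) := by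
        rw [hr0e]
        field_simp
      rw [e1] at hv3 hv5
      have hlogy1 : l ≤ Real.log t := by
        rw [hl]
        exact Real.log_le_log (by linarith) ht1.le
      have hlogy2 : Real.log t ≤ l + 1 := by
        have h6 : Real.log t ≤ Real.log (2 * T) := Real.log_le_log (by linarith) ht2
        rw [Real.log_mul (by norm_num) (by linarith), ← hl] at h6
        have h7 : Real.log 2 ≤ 1 := by
          have := Real.log_le_sub_one_of_pos (show (0 : ℝ) < 2 by norm_num)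
          linarith
        linarith
      have h8 : 400 * (n * η) ≤ l * η := by nlinarith
      have h := nice_aux (a := l / 2 * (r0 * v1)) (b := Real.log t / 2 * (r0 * v1)) (l := l / 2)
        (q := (Real.log t - l) / 2) (d := r0 * v1) hη0 hη1 Real.pi_pos
        hd0 (by positivity) rfl (by ring) (by linarith) (by nlinarith) hv3 hv5
      have e2 : (t + r0 * v1 - t) * Real.log t / (2 * Real.pi) - 1 =
          Real.log t / 2 * (r0 * v1) / Real.pi - 1 := by
        have := Real.pi_pos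
        field_simp
        ring
      rw [e2]
      exact h
  · obtain ⟨v2, hv1, hv2, hv3, hv4⟩ := hmain.2
    refine ⟨t + r0 * v2, ?_, ?_, ?_⟩
    · have h1 : r0 * -((1 + η / 4) * Real.pi / n) ≤ r0 * v2 := mul_le_mul_of_nonneg_left hv1 hr0p.le
      have h2 : r0 * -((1 + η / 4) * Real.pi / n) = -((1 + η / 4) * (2 * Real.pi / l)) := by
        rw [hr0e]
        field_simp
      rw [h2] at h1
      have h3 : (1 + η / 4) * (2 * Real.pi / l) ≤ (1 + η) * (2 * Real.pi / l) := by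
        have h4 : 0 < 2 * Real.pi / l := by have := Real.pi_pos; positivity
        apply mul_le_mul_of_nonneg_right _ h4.le
        linarith
      linarith
    · have := mul_nonneg hr0p.le (neg_nonneg.2 hv2)
      linarith
    · exact (hkey n v2 (by rw [abs_of_nonpos hv2]; linarith)).2 hv4

end Pool.Agent.Q278.DH
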