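import Pool.Agent.Q278.DH.B
import Pool.Agent.W125.SD.SUnitA
import Pool.Agent.W186.SD.FinD

set_option autoImplicit false

/-!
# Counting zeros of derivatives, local form
-/

namespace Pool.Agent.Q278.DH

open Complex Filter Topology MeasureTheory Set Metric
open Pool.Agent.H24R2.JP (XX HH Om)
open Pool.Agent.H24R2.DZ
open Pool.Agent.W125.SD (order_const_mul)

/-- Jensen's inequality for finite sets of zeros, local form -/
theorem jloc0 {f : ℂ → ℂ} {c : ℂ} {r R M : ℝ} (hf : AnalyticOnNhd ℂ f (closedBall c R)) (hr : 0 < r) (hrR : r < R)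
    (hM1 : 1 ≤ M) (hc : f c ≠ 0) (hM : ∀ z, ‖z - c‖ ≤ R → ‖f z‖ ≤ M) (S : Finset ℂ)
    (hS : ∀ s ∈ S, ‖s - c‖ ≤ r) :
    ∑ s ∈ S, (analyticOrderNatAt f s : ℝ) ≤ Real.log (M / ‖f c‖) / Real.log (R / r) := by
  classical
  have hR : 0 < R := hr.trans hrR
  have habs : |R| = R := abs_of_pos hR
  have habr : |r| = r := abs_of_pos hr
  have hanr : AnalyticOnNhd ℂ f (closedBall c r) := hf.mono (closedBall_subset_closedBall hrR.le)
  have h1 := AnalyticOnNhd.sum_divisor_le (c := c) (r := r) (R := R) (M := M) (f := f)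
    (by rw [habr]; exact hr) (by rw [habr, habs]; exact hrR) hM1 (by rw [habs]; exact hf) hc (by
      intro z hz
      rw [habs, mem_sphere_iff_norm] at hz
      exact hM z hz.le)
  rw [habr] at h1
  refine le_trans ?_ h1
  have hdiv : ∀ u ∈ closedBall c r, MeromorphicOn.divisor f (closedBall c r) u =
      (analyticOrderNatAt f u : ℤ) := by
    intro u hu
    rw [MeromorphicOn.AnalyticOnNhd.divisor_apply hanr hu]
    unfold analyticOrderNatAt
    cases h : analyticOrderAt f u with
    | top => simp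
    | coe n => simp
  have hfin : (MeromorphicOn.divisor f (closedBall c r)).support.Finite :=
    (MeromorphicOn.divisor f (closedBall c r)).finiteSupport (isCompact_closedBall c r)
  rw [finsum_eq_sum_of_support_subset (s := S ∪ hfin.toFinset)]
  · push_cast
    have h2 : ∑ s ∈ S, (analyticOrderNatAt f s : ℝ) =
        ∑ s ∈ S, ((MeromorphicOn.divisor f (closedBall c r) s : ℤ) : ℝ) := by
      refine Finset.sum_congr rfl fun s hs => ?_
      rw [hdiv s (by rw [mem_closedBall_iff_norm]; exact hS s hs)]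
      push_cast
      rfl
    rw [h2]
    refine Finset.sum_le_sum_of_subset_of_nonneg Finset.subset_union_left ?_
    intro u _ _
    by_cases hu : u ∈ closedBall c r
    · rw [hdiv u hu]
      exact_mod_cast Nat.zero_le _
    · rw [Function.locallyFinsuppWithin.apply_eq_zero_of_notMem _ hu]
      simp
  · intro u hu
    rw [Finset.coe_union, Set.Finite.coe_toFinset]
    exact Or.inr hu

/-- Jensen's inequality, scale invariant, local form -/
theorem jloc {f : ℂ → ℂ} {c : ℂ} {r R A : ℝ} (hf : AnalyticOnNhd ℂ f (closedBall c R)) (hr : 0 < r) (hrR : r < R)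
    (hc : f c ≠ 0) (hM : ∀ z, ‖z - c‖ ≤ R → ‖f z‖ ≤ Real.exp A * ‖f c‖) (S : Finset ℂ)
    (hS : ∀ s ∈ S, ‖s - c‖ ≤ r) :
    ∑ s ∈ S, (analyticOrderNatAt f s : ℝ) ≤ A / Real.log (R / r) := by
  have hcn : 0 < ‖f c‖ := norm_pos_iff.2 hc
  have hR : 0 < R := hr.trans hrR
  have hA : 1 ≤ Real.exp A := by
    have h := hM c (by simpa using hR.le)
    by_contra hlt
    push Not at hlt
    nlinarith
  have hg : AnalyticOnNhd ℂ (fun z => (f c)⁻¹ * f z) (closedBall c R) := fun z hz =>
    analyticAt_const.mul (hf z hz)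
  have h := jloc0 hg hr hrR (M := Real.exp A) hA (c := c) (by
    simp only [ne_eq, mul_eq_zero, inv_eq_zero, or_self]; exact hc) (by
    intro z hz
    rw [norm_mul, norm_inv, inv_mul_le_iff₀ hcn, mul_comm]
    exact hM z hz) S hS
  rw [inv_mul_cancel₀ hc, norm_one, div_one, Real.log_exp] at h
  refine le_trans (le_of_eq ?_) h
  refine Finset.sum_congr rfl fun s hs => ?_
  rw [order_const_mul (inv_ne_zero hc) s (hf s (by
    rw [mem_closedBall_iff_norm]
    exact (hS s hs).trans hrR.le))]

/-- **The number of zeros of the derivative.** -/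
theorem count_gen : ∃ η0 : ℝ, 0 < η0 ∧ ∀ (a B : ℝ) (n : ℕ) (F : ℂ → ℂ), 1 ≤ a → (n : ℝ) ≤ a → 0 ≤ B →
    DifferentiableOn ℂ F (ball 0 15) →
    (∀ w ∈ ball (3 : ℂ) (3 / 2), F w ≠ 0 ∧ ‖logDeriv F w - a‖ ≤ η0 * a) →
    (∀ z : ℂ, ‖z‖ ≤ 14 → ‖F z‖ ≤ Real.exp (B * a) * ‖F 3‖) →
    (∀ S : Finset ℂ, (∀ s ∈ S, ‖s‖ ≤ 6) →
      ∑ s ∈ S, (analyticOrderNatAt (iteratedDeriv n F) s : ℝ) ≤ 10 * (B + 1) * a) ∧
    ∀ s : ℂ, ‖s‖ ≤ 6 → analyticOrderAt (iteratedDeriv n F) s ≠ ⊤ := by
  obtain ⟨η0, hη0, hB⟩ := Pool.Agent.W186.SD.sb2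
  refine ⟨η0, hη0, ?_⟩
  intro a B n F ha hn hB0 hF hlog hbig
  have h3n : ‖(3 : ℂ)‖ = 3 := by norm_num
  have h3b : (3 : ℂ) ∈ ball (3 : ℂ) (3 / 2) := by
    rw [mem_ball, dist_self]
    norm_num
  have hsub : ball (3 : ℂ) (3 / 2) ⊆ ball (0 : ℂ) 15 := by
    intro w hw
    rw [mem_ball, dist_eq_norm] at hw
    rw [mem_ball_zero_iff]
    have := norm_add_le (w - 3) (3 : ℂ)
    rw [sub_add_cancel, h3n] at this
    linarith
  have hF3 : F 3 ≠ 0 := (hlog 3 h3b).1
  have hF3' : 0 < ‖F 3‖ := norm_pos_iff.2 hF3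
  have hfac : (0 : ℝ) < n.factorial := by exact_mod_cast n.factorial_pos
  -- the lower bound at `3`
  have hlow : (n.factorial : ℝ) * ‖F 3‖ ≤ 2 * ‖iteratedDeriv n F 3‖ := by
    rcases Nat.eq_zero_or_pos n with h0 | h0
    · subst h0
      rw [iteratedDeriv_zero, Nat.factorial_zero, Nat.cast_one, one_mul]
      linarith
    · obtain ⟨q, hq⟩ : ∃ q : ℝ, q = n / a := ⟨_, rfl⟩
      have hn0 : (0 : ℝ) < n := by exact_mod_cast h0
      have hq0 : 0 < q := by rw [hq]; positivity
      have hq1 : q ≤ 1 := by rw [hq, div_le_one (by linarith)]; exact hn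
      have hqa : q * a = n := by rw [hq]; field_simp
      have hqac : (q : ℂ) * a = n := by exact_mod_cast hqa
      have hqn : ‖(q : ℂ)‖ = q := by rw [Complex.norm_real, Real.norm_of_nonneg hq0.le]
      have h1 := hB n 0 (fun w => F ((q : ℂ) * w + 3)) h0 ?_
      · have e : iteratedDeriv n (fun w => F ((q : ℂ) * w + 3)) 0 = (q : ℂ) ^ n * iteratedDeriv n F 3 := by
          have h2 := iter_mul (fun w => F (w + 3)) (q : ℂ) n 0
          rw [iter_add F 3 n] at h2
          simp only [mul_zero, zero_add] at h2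
          exact h2
        rw [e] at h1
        simp only [mul_zero, zero_add] at h1
        refine h1.trans ?_
        rw [norm_mul, norm_pow, hqn]
        have h2 : q ^ n ≤ 1 := pow_le_one₀ hq0.le hq1
        have h3 := norm_nonneg (iteratedDeriv n F 3)
        nlinarith
      · intro w hw
        rw [mem_ball_zero_iff] at hw
        have hmem : (q : ℂ) * w + 3 ∈ ball (3 : ℂ) (3 / 2) := by
          rw [mem_ball, dist_eq_norm, add_sub_cancel_right, norm_mul, hqn]
          have := norm_nonneg w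
          nlinarith
        obtain ⟨h6, h7⟩ := hlog _ hmem
        have hl : HasDerivAt (fun w : ℂ => (q : ℂ) * w + 3) q w := by
          have := ((hasDerivAt_id w).const_mul (q : ℂ)).add_const 3
          exact this.congr_deriv (mul_one _)
        have hFd : DifferentiableAt ℂ F ((q : ℂ) * w + 3) :=
          hF.differentiableAt (isOpen_ball.mem_nhds (hsub hmem))
        refine ⟨DifferentiableAt.comp w hFd hl.differentiableAt, h6, ?_⟩
        have h8 : logDeriv (fun w => F ((q : ℂ) * w + 3)) w =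
            (q : ℂ) * logDeriv F ((q : ℂ) * w + 3) := by
          rw [logDeriv_apply, logDeriv_apply]
          have := (HasDerivAt.comp w hFd.hasDerivAt hl).deriv
          have h9 : deriv (fun w => F ((q : ℂ) * w + 3)) w =
              deriv F ((q : ℂ) * w + 3) * q := this
          rw [h9]
          ring
        rw [h8, ← hqac, ← mul_sub, norm_mul, hqn, ← hqa]
        calc q * ‖logDeriv F ((q : ℂ) * w + 3) - a‖ ≤ q * (η0 * a) :=
              mul_le_mul_of_nonneg_left h7 hq0.le
          _ = _ := by ring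
  have hne : iteratedDeriv n F 3 ≠ 0 := by
    intro h0
    rw [h0, norm_zero, mul_zero] at hlow
    have : 0 < (n.factorial : ℝ) * ‖F 3‖ := by positivity
    linarith
  have hdn : DifferentiableOn ℂ (iteratedDeriv n F) (ball 0 15) := diffOn_iter isOpen_ball hF n
  have han : AnalyticOnNhd ℂ (iteratedDeriv n F) (ball 0 15) := hdn.analyticOnNhd isOpen_ball
  have hsub2 : closedBall (3 : ℂ) 10 ⊆ ball (0 : ℂ) 15 := by
    intro w hw
    rw [mem_closedBall, dist_eq_norm] at hw
    rw [mem_ball_zero_iff]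
    have := norm_add_le (w - 3) (3 : ℂ)
    rw [sub_add_cancel, h3n] at this
    linarith
  have hder : ∀ z : ℂ, ‖z - 3‖ ≤ 10 →
      ‖iteratedDeriv n F z‖ ≤ Real.exp (B * a + 1) * ‖iteratedDeriv n F 3‖ := by
    intro z hz
    have hz2 : ‖z‖ ≤ 13 := by
      have := norm_add_le (z - 3) (3 : ℂ)
      rw [sub_add_cancel, h3n] at this
      linarith
    have hcl : closedBall z 1 ⊆ ball (0 : ℂ) 15 := by
      intro w hw
      rw [mem_closedBall, dist_eq_norm] at hw
      rw [mem_ball_zero_iff]
      have := norm_add_le (w - z) z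
      rw [sub_add_cancel] at this
      linarith
    have hd : DiffContOnCl ℂ F (ball z 1) := by
      apply DifferentiableOn.diffContOnCl
      rw [closure_ball _ one_ne_zero]
      exact hF.mono hcl
    have h4 := Complex.norm_iteratedDeriv_le_of_forall_mem_sphere_norm_le (n := n) (c := z) (R := 1)
      (C := Real.exp (B * a) * ‖F 3‖) (f := F) one_pos hd (by
        intro u hu
        rw [mem_sphere_iff_norm] at hu
        apply hbig
        have := norm_add_le (u - z) z
        rw [sub_add_cancel] at this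
        linarith)
    rw [one_pow, div_one] at h4
    refine h4.trans ?_
    have h2e : (2 : ℝ) ≤ Real.exp 1 := by
      have := Real.add_one_le_exp (1 : ℝ)
      linarith
    calc (n.factorial : ℝ) * (Real.exp (B * a) * ‖F 3‖) = Real.exp (B * a) * (n.factorial * ‖F 3‖) := by ring
      _ ≤ Real.exp (B * a) * (2 * ‖iteratedDeriv n F 3‖) := by gcongr
      _ ≤ Real.exp (B * a) * (Real.exp 1 * ‖iteratedDeriv n F 3‖) := by gcongr
      _ = _ := by rw [Real.exp_add]; ring
  refine ⟨fun S hS => ?_, fun s hs htop => ?_⟩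
  · have hj := jloc (f := iteratedDeriv n F) (c := 3) (r := 9) (R := 10) (A := B * a + 1)
      (han.mono hsub2) (by norm_num) (by norm_num) hne hder S (by
        intro s hs
        refine (norm_sub_le _ _).trans ?_
        rw [h3n]
        linarith [hS s hs])
    have h10 : (1 : ℝ) / 10 ≤ Real.log (10 / 9) := by
      have := Real.one_sub_inv_le_log_of_pos (show (0 : ℝ) < 10 / 9 by norm_num)
      norm_num at this ⊢
      linarith
    refine hj.trans ?_
    rw [div_le_iff₀ (by linarith)]
    have h11 : 10 * (B + 1) * a * (1 / 10) ≤ 10 * (B + 1) * a * Real.log (10 / 9) := by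
      have : 0 ≤ 10 * (B + 1) * a := by positivity
      gcongr
    nlinarith
  · have hs15 : s ∈ ball (0 : ℂ) 15 := by
      rw [mem_ball_zero_iff]
      linarith
    rw [analyticOrderAt_eq_top] at htop
    have h3 := han.eqOn_zero_of_preconnected_of_eventuallyEq_zero (convex_ball _ _).isPreconnected hs15 htop
    exact hne (h3 (hsub h3b))

end Pool.Agent.Q278.DH
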