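import Pool.Agent.Q278.DH.G
import Pool.Agent.W32.SD.SCount
import Pool.Agent.H24R2.DZ.XB

set_option autoImplicit false

/-!
# Counting zeros of the derivatives of Hardy's function
-/

namespace Pool.Agent.Q278.DH

open Complex Filter Topology MeasureTheory Set Metric
open Pool.Agent.H24R2.JP (XX HH Om)
open Pool.Agent.H24R2.DZ (NN ra SXB)

/-- multiplicity of `t` as a zero of the `n`-th derivative of `Z` -/
noncomputable def mz (n : ℕ) (t : ℝ) : ℕ := sInf {m : ℕ | iteratedDeriv (n + m) Z t ≠ 0}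

theorem zcount : ∃ η0 K : ℝ, 0 < η0 ∧ 1 ≤ K ∧ ∀ (t' r a B : ℝ) (n : ℕ), 400 ≤ t' → 0 < r → 60 * r < t' →
    1 ≤ a → (n : ℝ) ≤ a → 0 ≤ B → K * r ≤ η0 * a → 17 * K * r ≤ a →
    (∀ w ∈ ball (3 : ℂ) (3 / 2), XX (I * t' + r * w) ≠ 0 ∧
      ‖logDeriv (fun z : ℂ => XX (I * t' + r * z)) w - a‖ ≤ η0 * a) →
    (∀ z : ℂ, ‖z‖ ≤ 14 → ‖XX (I * t' + r * z)‖ ≤ Real.exp (B * a) * ‖XX (I * t' + r * 3)‖) →
    (∀ S : Finset ℝ, (∀ t ∈ S, |t - t'| ≤ 6 * r) → ∑ t ∈ S, (mz n t : ℝ) ≤ 10 * (B + 2) * a) ∧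
    ∀ t : ℝ, |t - t'| ≤ 6 * r → iteratedDeriv n Z t = 0 → 1 ≤ mz n t := by
  classical
  obtain ⟨η1, hη1, hcg⟩ := count_gen
  obtain ⟨K, hK, hrep⟩ := local_rep
  refine ⟨η1 / 2, K, by positivity, hK, ?_⟩
  intro t' r a B n ht' hr hrt ha hn hB hKr hKr2 hfar hbig
  obtain ⟨Q, b, hQ0, -, hQs, hQd, -, hQZ⟩ := hrep t' ht'
  have ht'0 : 0 < t' := by linarith
  have hrn : ‖(r : ℂ)‖ = r := by rw [Complex.norm_real, Real.norm_of_nonneg hr.le]
  have hrc : (r : ℂ) ≠ 0 := by exact_mod_cast hr.ne'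
  have hQb : ∀ w : ℂ, ‖w‖ < t' / 4 → ‖Q w‖ ≤ K * ‖w‖ := by
    intro w hw
    have h := (convex_ball (0 : ℂ) (t' / 4)).norm_image_sub_le_of_norm_deriv_le (𝕜 := ℂ) (f := Q) (x := 0)
      (y := w) (C := K) (fun x hx => (hQd x (by rwa [mem_ball_zero_iff] at hx)).1)
      (fun x hx => (hQd x (by rwa [mem_ball_zero_iff] at hx)).2) (by rw [mem_ball_zero_iff, norm_zero]; linarith)
      (by rwa [mem_ball_zero_iff])
    rwa [hQ0, sub_zero, sub_zero] at h
  obtain ⟨g, hg⟩ : ∃ g : ℂ → ℂ, g = fun w => XX (I * t' + w) * cexp (-(Q w)) := ⟨_, rfl⟩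
  have hgd : DifferentiableOn ℂ g (ball 0 (t' / 4)) := by
    intro w hw
    rw [mem_ball_zero_iff] at hw
    have h1 : DifferentiableAt ℂ (fun w => XX (I * t' + w)) w :=
      DifferentiableAt.comp w (Pool.Agent.W125.SD.XX_diff _) (by fun_prop)
    rw [hg]
    exact (h1.mul (hQd w hw).1.neg.cexp).differentiableWithinAt
  have hreal := fun m => real_iter (f := Z) (g := g) (c := -(1 / (‖HH (I * t')‖ : ℂ))) hgd
    (by rw [hg]; exact hQZ) m
  obtain ⟨Φ, hΦ⟩ : ∃ Φ : ℂ → ℂ, Φ = fun z => g ((r : ℂ) * z) := ⟨_, rfl⟩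
  have hrz : ∀ z : ℂ, ‖z‖ < 15 → ‖(r : ℂ) * z‖ < t' / 4 := by
    intro z hz
    rw [norm_mul, hrn]
    nlinarith [norm_nonneg z]
  have hΦd : DifferentiableOn ℂ Φ (ball 0 15) := by
    intro z hz
    rw [mem_ball_zero_iff] at hz
    have h1 : DifferentiableAt ℂ g ((r : ℂ) * z) :=
      hgd.differentiableAt (isOpen_ball.mem_nhds (by rw [mem_ball_zero_iff]; exact hrz z hz))
    rw [hΦ]
    exact (DifferentiableAt.comp z h1 (by fun_prop)).differentiableWithinAt
  have hΦe : ∀ z, Φ z = XX (I * t' + r * z) * cexp (-(Q (r * z))) := by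
    intro z
    rw [hΦ, hg]
  have h3n : ‖(3 : ℂ)‖ = 3 := by norm_num
  have hmain := hcg a (B + 1) n Φ ha hn (by linarith) hΦd (by
    intro w hw
    obtain ⟨h1, h2⟩ := hfar w hw
    have hw15 : ‖w‖ < 15 := by
      rw [mem_ball, dist_eq_norm] at hw
      have := norm_add_le (w - 3) (3 : ℂ)
      rw [sub_add_cancel, h3n] at this
      linarith
    refine ⟨by rw [hΦe]; exact mul_ne_zero h1 (Complex.exp_ne_zero _), ?_⟩
    obtain ⟨F0, hF0⟩ : ∃ F0 : ℂ → ℂ, F0 = fun z : ℂ => XX (I * t' + r * z) := ⟨_, rfl⟩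
    have hF0d : HasDerivAt F0 (deriv F0 w) w := by
      apply DifferentiableAt.hasDerivAt
      rw [hF0]
      exact DifferentiableAt.comp w (Pool.Agent.W125.SD.XX_diff _) (by fun_prop)
    have hlin : HasDerivAt (fun z : ℂ => (r : ℂ) * z) r w := by
      simpa using (hasDerivAt_id w).const_mul (r : ℂ)
    have hQw := (hQd _ (hrz w hw15))
    have hQd' : HasDerivAt (fun z : ℂ => Q ((r : ℂ) * z)) (deriv Q (r * w) * r) w :=
      HasDerivAt.comp w hQw.1.hasDerivAt hlin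
    have hEd := hQd'.neg.cexp
    have hF0w : F0 w ≠ 0 := by rw [hF0]; exact h1
    have e1 : logDeriv Φ w = logDeriv F0 w - deriv Q (r * w) * r := by
      have e2 : Φ = fun z => F0 z * cexp (-(Q ((r : ℂ) * z))) := by
        funext z
        rw [hΦe, hF0]
      have h3 : deriv (fun z => F0 z * cexp (-(Q ((r : ℂ) * z)))) w = _ := (hF0d.mul hEd).deriv
      rw [e2, logDeriv_apply, h3, logDeriv_apply]
      have h4 := Complex.exp_ne_zero (-(Q ((r : ℂ) * w)))
      simp only [Pi.neg_apply]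
      field_simp
      ring
    rw [← hF0] at h2
    rw [e1]
    have e3 : logDeriv F0 w - deriv Q (r * w) * r - a = (logDeriv F0 w - a) - deriv Q (r * w) * r := by ring
    rw [e3]
    refine (norm_sub_le _ _).trans ?_
    rw [norm_mul, hrn]
    have h5 : ‖deriv Q (r * w)‖ * r ≤ K * r := mul_le_mul_of_nonneg_right hQw.2 hr.le
    linarith) (by
    intro z hz
    have hz15 : ‖z‖ < 15 := by linarith
    rw [hΦe, hΦe, norm_mul, norm_mul]
    have h1 : ‖cexp (-(Q (r * z)))‖ ≤ Real.exp (14 * K * r) := by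
      refine (Complex.norm_exp_le_exp_norm _).trans (Real.exp_le_exp.2 ?_)
      rw [norm_neg]
      refine (hQb _ (hrz z hz15)).trans ?_
      rw [norm_mul, hrn]
      have : K * (r * ‖z‖) ≤ K * (r * 14) := by gcongr
      linarith
    have h2 : Real.exp (-(3 * K * r)) ≤ ‖cexp (-(Q (r * 3)))‖ := by
      rw [Complex.norm_exp]
      apply Real.exp_le_exp.2
      have h3 := hQb _ (hrz 3 (by rw [h3n]; norm_num))
      rw [norm_mul, hrn, h3n] at h3
      have h4 := (abs_le.1 ((Complex.abs_re_le_norm (Q (r * 3))).trans h3)).2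
      rw [Complex.neg_re]
      linarith
    have h5 : Real.exp (14 * K * r) ≤ Real.exp a * Real.exp (-(3 * K * r)) := by
      rw [← Real.exp_add]
      apply Real.exp_le_exp.2
      linarith
    calc ‖XX (I * t' + r * z)‖ * ‖cexp (-(Q (r * z)))‖
        ≤ (Real.exp (B * a) * ‖XX (I * t' + r * 3)‖) * (Real.exp a * Real.exp (-(3 * K * r))) := by
          apply mul_le_mul (hbig z hz) (h1.trans h5) (norm_nonneg _) (by positivity)
      _ = Real.exp ((B + 1) * a) * (‖XX (I * t' + r * 3)‖ * Real.exp (-(3 * K * r))) := by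
          rw [add_mul, one_mul, Real.exp_add]
          ring
      _ ≤ _ := by gcongr)
  -- transfer
  obtain ⟨φ, hφ⟩ : ∃ φ : ℝ → ℂ, φ = fun t => I * (((t - t') / r : ℝ) : ℂ) := ⟨_, rfl⟩
  have hφn : ∀ t, |t - t'| ≤ 6 * r → ‖φ t‖ ≤ 6 := by
    intro t ht
    rw [hφ]
    simp only
    rw [norm_mul, Complex.norm_I, one_mul, Complex.norm_real, Real.norm_eq_abs, abs_div, abs_of_pos hr,
      div_le_iff₀ hr]
    exact ht
  have hHHn : (‖HH (I * t')‖ : ℂ) ≠ 0 := by
    have h0 := Pool.Agent.H24R2.JP.StirAux.HH_ne (z := I * t') (by simpa using ht'0)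
    exact_mod_cast (norm_pos_iff.2 h0).ne'
  have hc0 : -(1 / (‖HH (I * t')‖ : ℂ)) ≠ 0 := neg_ne_zero.2 (one_div_ne_zero hHHn)
  have hkey : ∀ (m : ℕ) (t : ℝ), |t - t'| ≤ 6 * r →
      (iteratedDeriv m Z t = 0 ↔ iteratedDeriv m Φ (φ t) = 0) := by
    intro m t ht
    have h2 := hreal m (t - t') (by linarith)
    rw [add_sub_cancel] at h2
    have h3 : iteratedDeriv m Φ (φ t) = (r : ℂ) ^ m * iteratedDeriv m g (I * ((t - t' : ℝ) : ℂ)) := by
      rw [hΦ, iter_mul, hφ]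
      simp only
      congr 2
      push_cast
      field_simp
    rw [h2, h3]
    simp only [mul_eq_zero, pow_eq_zero_iff', hc0, I_ne_zero, hrc, false_and, false_or, ne_eq]
  have hmem : ∀ t : ℝ, |t - t'| ≤ 6 * r → φ t ∈ ball (0 : ℂ) 15 := by
    intro t ht
    rw [mem_ball_zero_iff]
    linarith [hφn t ht]
  have han : ∀ t : ℝ, |t - t'| ≤ 6 * r → AnalyticAt ℂ (iteratedDeriv n Φ) (φ t) := fun t ht =>
    (diffOn_iter isOpen_ball hΦd n).analyticAt (isOpen_ball.mem_nhds (hmem t ht))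
  have hmz : ∀ t : ℝ, |t - t'| ≤ 6 * r → mz n t = analyticOrderNatAt (iteratedDeriv n Φ) (φ t) := by
    intro t ht
    rw [order_eq (han t ht)]
    unfold mz
    congr 1
    ext m
    show iteratedDeriv (n + m) Z t ≠ 0 ↔ iteratedDeriv m (iteratedDeriv n Φ) (φ t) ≠ 0
    rw [iter_iter]
    exact not_congr (hkey (n + m) t ht)
  refine ⟨fun S hS => ?_, fun t ht h0 => ?_⟩
  · have hinj : Function.Injective φ := by
      intro x y hxy
      rw [hφ] at hxy
      have h1 := mul_left_cancel₀ I_ne_zero hxy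
      have h2 : (x - t') / r = (y - t') / r := by exact_mod_cast h1
      rw [div_left_inj' hr.ne'] at h2
      linarith
    have h1 := hmain.1 (S.image φ) (by
      intro s hs
      obtain ⟨t, ht, rfl⟩ := Finset.mem_image.1 hs
      exact hφn t (hS t ht))
    rw [Finset.sum_image (fun x _ y _ h => hinj h)] at h1
    have h2 : ∑ t ∈ S, (mz n t : ℝ) = ∑ t ∈ S, (analyticOrderNatAt (iteratedDeriv n Φ) (φ t) : ℝ) :=
      Finset.sum_congr rfl fun t ht => by rw [hmz t (hS t ht)]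
    rw [h2]
    refine h1.trans (le_of_eq ?_)
    ring
  · have h1 := hmain.2 (φ t) (hφn t ht)
    have h2 : analyticOrderAt (iteratedDeriv n Φ) (φ t) ≠ 0 := by
      rw [ne_eq, (han t ht).analyticOrderAt_eq_zero, not_not]
      exact (hkey n t ht).1 h0
    rw [hmz t ht]
    unfold analyticOrderNatAt
    rw [Nat.one_le_iff_ne_zero, ne_eq, ENat.toNat_eq_zero]
    push Not
    exact ⟨h2, h1⟩

/-- unit windows -/
theorem zunit : ∃ C T0 : ℝ, 0 < C ∧ 400 ≤ T0 ∧ ∀ (t : ℝ) (n : ℕ), T0 ≤ t → (n : ℝ) ≤ 5 * Real.log t →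
    (∀ S : Finset ℝ, (∀ s ∈ S, |s - t| ≤ 1) → ∑ s ∈ S, (mz n s : ℝ) ≤ C * Real.log t) ∧
    ∀ s : ℝ, |s - t| ≤ 1 → iteratedDeriv n Z s = 0 → 1 ≤ mz n s := by
  obtain ⟨η0, K, hη0, hK, hz⟩ := zcount
  obtain ⟨K0, T1, hT1, hX⟩ := Pool.Agent.H24R2.DZ.xb 150
  obtain ⟨K1, hK1⟩ : ∃ K1 : ℝ, K1 = |K0| := ⟨_, rfl⟩
  have hK1p : 0 ≤ K1 := by rw [hK1]; exact abs_nonneg _
  have hKK : K0 ≤ K1 := by rw [hK1]; exact le_abs_self _
  refine ⟨50 * (2 * K1 / 5 + 2), max (max 1000 T1) (Real.exp (2 * K1 / η0 + 2 * K / η0 + 34 * K + 1)),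
    by positivity, le_trans (by norm_num) ((le_max_left _ _).trans (le_max_left _ _)), ?_⟩
  intro t n ht hn
  have ht1000 : 1000 ≤ t := ((le_max_left _ _).trans (le_max_left _ _)).trans ht
  have htT : T1 ≤ t := ((le_max_right _ _).trans (le_max_left _ _)).trans ht
  have ht0 : 0 < t := by linarith
  obtain ⟨L, hL⟩ : ∃ L : ℝ, L = Real.log t := ⟨_, rfl⟩
  have hLb : 2 * K1 / η0 + 2 * K / η0 + 34 * K + 1 ≤ L := by
    rw [hL, Real.le_log_iff_exp_le ht0]
    exact (le_max_right _ _).trans ht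
  have hp1 : 0 ≤ 2 * K1 / η0 := by positivity
  have hp2 : 0 ≤ 2 * K / η0 := by positivity
  have hL1 : 2 * K1 / η0 ≤ L := by linarith
  have hL2 : 2 * K / η0 ≤ L := by linarith
  rw [div_le_iff₀ hη0] at hL1 hL2
  have hL3 : 34 * K ≤ L := by linarith
  have hL4 : 1 ≤ L := by linarith
  rw [← hL] at hn ⊢
  have hup : ∀ u : ℂ, ‖u‖ ≤ 150 → ‖XX (I * t + u)‖ ≤ Real.exp (K1 * L) * ‖HH (I * t)‖ := by
    intro u hu
    refine (hX t u htT hu).1.trans ?_
    rw [← hL]
    gcongr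
  have hlow : ∀ u : ℂ, ‖u‖ ≤ 150 → 10 ≤ u.re → XX (I * t + u) ≠ 0 ∧
      ‖HH (I * t)‖ ≤ Real.exp (K1 * L) * ‖XX (I * t + u)‖ ∧
      ‖logDeriv XX (I * t + u) - ((L / 2 : ℝ) : ℂ)‖ ≤ K1 := by
    intro u hu hre
    obtain ⟨h1, h2, h3⟩ := (hX t u htT hu).2 hre
    rw [← hL] at h2 h3
    refine ⟨h1, ?_, h3.trans hKK⟩
    have h4 : ‖HH (I * t)‖ ≤ Real.exp (K0 * L) * ‖XX (I * t + u)‖ := by
      calc ‖HH (I * t)‖ = Real.exp (K0 * L) * (Real.exp (-(K0 * L)) * ‖HH (I * t)‖) := by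
            rw [← mul_assoc, ← Real.exp_add, add_neg_cancel, Real.exp_zero, one_mul]
        _ ≤ Real.exp (K0 * L) * ‖XX (I * t + u)‖ := by gcongr
    refine h4.trans ?_
    gcongr
  have h10n : ‖((10 : ℝ) : ℂ)‖ = 10 := by norm_num
  have hres := hz t 10 (5 * L) (2 * K1 / 5) n (by linarith) (by norm_num) (by linarith) (by linarith) hn
    (by positivity) (by linarith) (by linarith) (by
      intro w hw
      rw [mem_ball, dist_eq_norm] at hw
      have hre := abs_le.1 ((Complex.abs_re_le_norm (w - 3)).trans hw.le)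
      have h3r : (3 : ℂ).re = 3 := by norm_num
      rw [Complex.sub_re, h3r] at hre
      have h3n : ‖(3 : ℂ)‖ = 3 := by norm_num
      have hwn : ‖w‖ ≤ 9 / 2 := by
        have := norm_add_le (w - 3) (3 : ℂ)
        rw [sub_add_cancel, h3n] at this
        linarith
      obtain ⟨h1, -, h2⟩ := hlow (((10 : ℝ) : ℂ) * w) (by
        rw [norm_mul, h10n]
        linarith) (by
        rw [Complex.re_ofReal_mul]
        linarith [hre.1])
      refine ⟨h1, ?_⟩
      have hl : HasDerivAt (fun z : ℂ => I * t + ((10 : ℝ) : ℂ) * z) ((10 : ℝ) : ℂ) w := by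
        have := ((hasDerivAt_id w).const_mul ((10 : ℝ) : ℂ)).const_add (I * (t : ℂ))
        exact this.congr_deriv (mul_one _)
      have h8 : logDeriv (fun z : ℂ => XX (I * t + ((10 : ℝ) : ℂ) * z)) w =
          ((10 : ℝ) : ℂ) * logDeriv XX (I * t + ((10 : ℝ) : ℂ) * w) := by
        have h9 : deriv (fun z : ℂ => XX (I * t + ((10 : ℝ) : ℂ) * z)) w =
            deriv XX (I * t + ((10 : ℝ) : ℂ) * w) * ((10 : ℝ) : ℂ) :=
          (HasDerivAt.comp w (Pool.Agent.W125.SD.XX_diff _).hasDerivAt hl).deriv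
        rw [logDeriv_apply, h9, logDeriv_apply]
        ring
      rw [h8]
      have e : ((5 * L : ℝ) : ℂ) = ((10 : ℝ) : ℂ) * ((L / 2 : ℝ) : ℂ) := by
        push_cast
        ring
      rw [e, ← mul_sub, norm_mul, h10n]
      linarith) (by
      intro z hz
      have h1 := hup (((10 : ℝ) : ℂ) * z) (by
        rw [norm_mul, h10n]
        linarith)
      have h2 := (hlow (((10 : ℝ) : ℂ) * 3) (by
        rw [norm_mul, h10n]
        norm_num) (by
        rw [Complex.re_ofReal_mul]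
        norm_num)).2.1
      have e : Real.exp (2 * K1 / 5 * (5 * L)) = Real.exp (K1 * L) * Real.exp (K1 * L) := by
        rw [← Real.exp_add]
        congr 1
        ring
      rw [e]
      calc ‖XX (I * t + ((10 : ℝ) : ℂ) * z)‖ ≤ Real.exp (K1 * L) * ‖HH (I * t)‖ := h1
        _ ≤ Real.exp (K1 * L) * (Real.exp (K1 * L) * ‖XX (I * t + ((10 : ℝ) : ℂ) * 3)‖) := by gcongr
        _ = _ := by ring)
  refine ⟨fun S hS => ?_, fun s hs h0 => hres.2 s (by linarith) h0⟩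
  refine (hres.1 S fun s hs => by linarith [hS s hs]).trans (le_of_eq ?_)
  ring

/-- windows at the scale `a` -/
theorem zscale : ∃ η C T0 : ℝ, 0 < η ∧ 0 < C ∧ 2 ≤ T0 ∧ ∀ (T a t' : ℝ) (n : ℕ), T0 ≤ T → 1 ≤ a →
    a ≤ Real.log T / 200 → (n : ℝ) ≤ a → T / 2 ≤ t' → NN a η (fun z => XX (I * t' + ra T a * z)) →
    ∀ S : Finset ℝ, (∀ s ∈ S, |s - t'| ≤ 6 * ra T a) → ∑ s ∈ S, (mz n s : ℝ) ≤ C * a := by
  obtain ⟨η0, K, hη0, hK, hz⟩ := zcount
  refine ⟨min η0 1, 360, max 800 (Real.exp (2 * K / η0 + 34 * K + 1)), lt_min hη0 one_pos, by norm_num,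
    le_trans (by norm_num) (le_max_left _ _), ?_⟩
  intro T a t' n hT ha haL hn ht' hN S hS
  have hT800 : 800 ≤ T := (le_max_left _ _).trans hT
  have hT0 : 0 < T := by linarith
  obtain ⟨L, hL⟩ : ∃ L : ℝ, L = Real.log T := ⟨_, rfl⟩
  have hLb : 2 * K / η0 + 34 * K + 1 ≤ L := by
    rw [hL, Real.le_log_iff_exp_le hT0]
    exact (le_max_right _ _).trans hT
  have hp2 : 0 ≤ 2 * K / η0 := by positivity
  have hL2 : 2 * K / η0 ≤ L := by linarith
  rw [div_le_iff₀ hη0] at hL2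
  have hL3 : 34 * K ≤ L := by linarith
  have hL4 : 1 ≤ L := by linarith
  have hL0 : 0 < L := by linarith
  obtain ⟨r, hr⟩ : ∃ r : ℝ, r = ra T a := ⟨_, rfl⟩
  have hre : r = 2 * a / L := by
    rw [hr, hL]
    unfold ra
    rw [← hL]
    field_simp
  rw [← hr] at hN hS
  rw [← hL] at haL
  have hr0 : 0 < r := by rw [hre]; positivity
  have hr1 : r ≤ 1 / 100 := by
    rw [hre, div_le_iff₀ hL0]
    linarith
  have hres := hz t' r a 34 n (by linarith) hr0 (by linarith) ha hn (by norm_num) (by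
      have e : K * r = 2 * K * a / L := by rw [hre]; ring
      rw [e, div_le_iff₀ hL0]
      have := mul_le_mul_of_nonneg_right hL2 (by linarith : 0 ≤ a)
      linarith) (by
      have e : 17 * K * r = 34 * K * a / L := by rw [hre]; ring
      rw [e, div_le_iff₀ hL0]
      have := mul_le_mul_of_nonneg_right hL3 (by linarith : 0 ≤ a)
      linarith) (by
      intro w hw
      rw [mem_ball, dist_eq_norm] at hw
      have hre := abs_le.1 ((Complex.abs_re_le_norm (w - 3)).trans hw.le)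
      have h3r : (3 : ℂ).re = 3 := by norm_num
      rw [Complex.sub_re, h3r] at hre
      have h3n : ‖(3 : ℂ)‖ = 3 := by norm_num
      have hwn : ‖w‖ ≤ 20 := by
        have := norm_add_le (w - 3) (3 : ℂ)
        rw [sub_add_cancel, h3n] at this
        linarith
      obtain ⟨h1, h2⟩ := hN.far w (by linarith [hre.1]) hwn
      exact ⟨h1, h2.trans (mul_le_mul_of_nonneg_right (min_le_left _ _) (by linarith))⟩) (by
      intro z hz
      have h := Pool.Agent.W32.SD.big (by linarith : (0 : ℝ) ≤ a) (min_le_right _ _) hN z hz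
      exact h.trans (le_of_eq (mul_comm _ _)))
  refine (hres.1 S hS).trans (le_of_eq ?_)
  ring

end Pool.Agent.Q278.DH
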