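import Pool.Agent.Q278.DH.F
import Pool.Agent.Q278.DH.H
import Pool.Agent.Q278.DE.E
import Pool.Agent.W186.SD.FinD

set_option autoImplicit false

/-!
# Dyadic windows: all but few zeros of the derivatives of Hardy's function are regular
-/

namespace Pool.Agent.Q278.DH

open Complex Filter Topology MeasureTheory Set
open Pool.Agent.H24R2.JP (XX)
open Pool.Agent.H24R2.DZ
open W327.SD (NN_mono)
open Pool.Agent.W571.SD (ra_eq BB geo)
open Pool.Agent.Q278.DE (GH int_sub_H)

/-- the covering lemma -/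
theorem coverR (w : ℝ → ℝ) (hw : ∀ s, 0 ≤ w s) (τ : ℝ → ℝ) (δ W : ℝ) (hδ : 0 < δ) (hW : 0 ≤ W) :
    ∀ (S : Finset ℝ) (B : Set ℝ) (m : ℝ), 0 ≤ m →
    (∀ s ∈ S, Icc (τ s - δ) (τ s + δ) ⊆ B) → volume B ≤ ENNReal.ofReal m →
    (∀ s ∈ S, ∑ s' ∈ S.filter (fun s' => |τ s' - τ s| ≤ 2 * δ), w s' ≤ W) →
    ∑ s ∈ S, w s ≤ W * m / (2 * δ) := by
  intro S
  induction S using Finset.strongInduction with
  | H S ih =>
    intro B m hm0 hB hm hS
    rcases S.eq_empty_or_nonempty with rfl | ⟨s0, hs0⟩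
    · rw [Finset.sum_empty]; positivity
    · set S1 := S.filter (fun s' => |τ s' - τ s0| ≤ 2 * δ) with hS1
      set S2 := S.filter (fun s' => ¬ |τ s' - τ s0| ≤ 2 * δ) with hS2
      have hsplit : ∑ s ∈ S, w s = ∑ s ∈ S1, w s + ∑ s ∈ S2, w s := by
        rw [hS1, hS2, Finset.sum_filter_add_sum_filter_not]
      have hI : Icc (τ s0 - δ) (τ s0 + δ) ⊆ B := hB s0 hs0
      have hvI : volume (Icc (τ s0 - δ) (τ s0 + δ)) = ENNReal.ofReal (2 * δ) := by
        rw [Real.volume_Icc]; congr 1; ring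
      have h2δ : 2 * δ ≤ m := by
        have h1 : ENNReal.ofReal (2 * δ) ≤ ENNReal.ofReal m := by
          rw [← hvI]; exact (measure_mono hI).trans hm
        exact (ENNReal.ofReal_le_ofReal_iff hm0).1 h1
      have hsub : S2 ⊂ S := by
        rw [Finset.ssubset_iff_of_subset (Finset.filter_subset _ _)]
        refine ⟨s0, hs0, ?_⟩
        rw [Finset.mem_filter]
        push Not
        intro _
        rw [sub_self, abs_zero]; positivity
      have hind := ih S2 hsub (B \ Icc (τ s0 - δ) (τ s0 + δ)) (m - 2 * δ) (by linarith) (by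
        intro s hs
        rw [hS2, Finset.mem_filter] at hs
        intro x hx
        refine ⟨hB s hs.1 hx, ?_⟩
        intro hx2
        apply hs.2
        rw [abs_le]
        constructor <;> linarith [hx.1, hx.2, hx2.1, hx2.2]) (by
        rw [measure_sdiff hI measurableSet_Icc.nullMeasurableSet (by
          rw [hvI]; exact ENNReal.ofReal_ne_top), hvI,
          ENNReal.ofReal_sub _ (by positivity)]
        exact tsub_le_tsub_right hm _) (by
        intro s hs
        refine le_trans ?_ (hS s ((Finset.filter_subset _ _) hs))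
        apply Finset.sum_le_sum_of_subset_of_nonneg
        · intro x hx
          rw [Finset.mem_filter] at hx ⊢
          exact ⟨(Finset.filter_subset _ _) hx.1, hx.2⟩
        · intro _ _ _; exact hw _)
      have h1 := hS s0 hs0
      rw [← hS1] at h1
      rw [hsplit]
      have h3 : W * (m - 2 * δ) / (2 * δ) = W * m / (2 * δ) - W := by
        field_simp
      rw [h3] at hind
      linarith


/-- splitting a sum according to a cover by two kinds of sets -/
theorem split2R (w : ℝ → ℝ) (hw : ∀ s, 0 ≤ w s) (S : Finset ℝ) (pc : ℝ → Prop) (p : ℕ → ℝ → Prop)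
    [DecidablePred pc] [∀ i, DecidablePred (p i)] (J : ℕ)
    (h : ∀ s ∈ S, pc s ∨ ∃ i < J, p i s) :
    ∑ s ∈ S, w s ≤ ∑ s ∈ S.filter pc, w s +
      ∑ i ∈ Finset.range J, ∑ s ∈ S.filter (p i), w s := by
  simp only [Finset.sum_filter]
  rw [Finset.sum_comm (s := Finset.range J), ← Finset.sum_add_distrib]
  apply Finset.sum_le_sum
  intro s hs
  have hn : ∀ (q : Prop) [Decidable q], 0 ≤ (if q then w s else 0) := by
    intro q _
    split_ifs
    · exact hw s
    · exact le_rfl
  have hsum : 0 ≤ ∑ i ∈ Finset.range J, (if p i s then w s else 0) :=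
    Finset.sum_nonneg fun i _ => hn _
  rcases h s hs with h1 | ⟨i, hi, h1⟩
  · rw [if_pos h1]; linarith
  · have h2 : w s ≤ ∑ i ∈ Finset.range J, (if p i s then w s else 0) := by
      have := Finset.single_le_sum (f := fun i => if p i s then w s else 0)
        (fun i _ => hn _) (Finset.mem_range.2 hi)
      simp only [if_pos h1] at this
      exact this
    linarith [hn (pc s)]

/-- zeros in windows of length at most two -/
theorem mz_nonneg (n : ℕ) (s : ℝ) : 0 ≤ (mz n s : ℝ) := Nat.cast_nonneg _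

/-- **Dyadic windows.** -/
theorem mid_Z {ηm : ℝ} (hηm0 : 0 < ηm) (hηm1 : ηm ≤ 1) : ∃ c C T0 : ℝ, ∃ n0 : ℕ, 0 < c ∧ 0 < C ∧ 1000 ≤ T0 ∧
    1 ≤ n0 ∧ ∀ (T : ℝ) (n : ℕ), T0 ≤ T → n0 ≤ n → (n : ℝ) ≤ Real.log T / 400 →
    (∀ S : Finset ℝ, (∀ s ∈ S, T < s ∧ s ≤ 2 * T ∧ iteratedDeriv n Z s = 0 ∧ ¬ Regular n ηm s) →
      ∑ s ∈ S, (mz n s : ℝ) ≤ C * T * Real.exp (-(c * n)) * Real.log T) ∧
    ∃ B : Set ℝ, volume B ≤ ENNReal.ofReal (C * T * Real.exp (-(c * n))) ∧ ∀ t : ℝ, T < t → t ≤ 2 * T → t ∉ B →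
      ∃ t2 : ℝ, t - (1 + ηm) * (2 * Real.pi / Real.log T) ≤ t2 ∧ t2 ≤ t ∧ iteratedDeriv n Z t2 = 0 := by
  classical
  have h1 : SC1 := Pool.Agent.W186.SD.sc1
  have h2 : SC2 := Pool.Agent.W186.SD.sc2
  obtain ⟨η4, C4, T4, hη4, hC4, hT4, hcount⟩ := zscale
  obtain ⟨η8, T8, n8, hη8, hT8, hn8, hnice⟩ := nice_Z hηm0 hηm1
  set η := min η4 η8 with hηd
  have hη : 0 < η := lt_min hη4 hη8
  have hηη4 : η ≤ η4 := min_le_left _ _
  have hηη8 : η ≤ η8 := min_le_right _ _
  obtain ⟨η1, ε1, hη1, hε1, hsc2⟩ := h2 η hη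
  obtain ⟨θ, c1, C1, a1, T1, hθ, hθ', hc1, hC1, ha1, hT1, hsc1⟩ := h1 η1 ε1 hη1 hε1
  obtain ⟨a2, T2, hsc2'⟩ := hsc2 θ hθ hθ'
  obtain ⟨C5, T5, hC5, hT5, hunit⟩ := zunit
  have hq1 : Real.exp (-c1) < 1 := Real.exp_lt_one_iff.2 (by linarith)
  set Q : ℝ := 1 / (1 - Real.exp (-c1)) with hQ
  have hQ0 : 0 < Q := by rw [hQ]; apply one_div_pos.2; linarith
  refine ⟨c1, 40000 * C5 * C1 + 100 * C4 * C1 * Q + C1,
    max (max (max T1 T2) (max T4 T8)) (max (2 * T5) 1000), max n8 (max ⌈a1⌉₊ (max ⌈a2⌉₊ 1)),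
    hc1, by positivity, (le_max_right _ _).trans (le_max_right _ _), le_max_of_le_left hn8, ?_⟩
  intro T n hT hn hnL
  -- unpack the sizes
  have hTT1 : T1 ≤ T := ((le_max_left _ _).trans ((le_max_left _ _).trans (le_max_left _ _))).trans hT
  have hTT2 : T2 ≤ T := ((le_max_right _ _).trans ((le_max_left _ _).trans (le_max_left _ _))).trans hT
  have hTT4 : T4 ≤ T := ((le_max_left _ _).trans ((le_max_right _ _).trans (le_max_left _ _))).trans hT
  have hTT8 : T8 ≤ T := ((le_max_right _ _).trans ((le_max_right _ _).trans (le_max_left _ _))).trans hT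
  have hTT5 : 2 * T5 ≤ T := ((le_max_left _ _).trans (le_max_right _ _)).trans hT
  have hT1000 : 1000 ≤ T := ((le_max_right _ _).trans (le_max_right _ _)).trans hT
  have hT0 : 0 < T := by linarith
  have hn8' : n8 ≤ n := (le_max_left _ _).trans hn
  have hna1 : a1 ≤ n := by
    have : ⌈a1⌉₊ ≤ n := ((le_max_left _ _).trans (le_max_right _ _)).trans hn
    exact (Nat.le_ceil a1).trans (by exact_mod_cast this)
  have hna2 : a2 ≤ n := by
    have : ⌈a2⌉₊ ≤ n := ((le_max_left _ _).trans ((le_max_right _ _).trans (le_max_right _ _))).trans hn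
    exact (Nat.le_ceil a2).trans (by exact_mod_cast this)
  have hn1 : 1 ≤ n := ((le_max_right _ _).trans ((le_max_right _ _).trans (le_max_right _ _))).trans hn
  have hn1' : (1 : ℝ) ≤ n := by exact_mod_cast hn1
  set L := Real.log T with hL
  have hL400 : 400 ≤ L := by linarith
  have hL0 : 0 < L := by linarith
  have hlog3 : Real.log (3 * T) ≤ 2 * L := by
    rw [Real.log_mul (by norm_num) hT0.ne']
    have : Real.log 3 ≤ 2 := by
      have := Real.log_le_sub_one_of_pos (show (0 : ℝ) < 3 by norm_num)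
      linarith
    linarith
  have hloghalf : ∀ x : ℝ, T / 2 ≤ x → (n : ℝ) ≤ 5 * Real.log x := by
    intro x hx
    have h10 : Real.log (T / 2) ≤ Real.log x := Real.log_le_log (by positivity) hx
    have h11 : Real.log (T / 2) = L - Real.log 2 := by
      rw [Real.log_div hT0.ne' (by norm_num)]
    have h12 : Real.log 2 ≤ 1 := by
      have := Real.log_le_sub_one_of_pos (show (0 : ℝ) < 2 by norm_num)
      linarith
    linarith
  obtain ⟨J, hJ1, hJ2, hJ3⟩ := Pool.Agent.W571.SD.exists_J hn1 hnL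
  -- the radii
  have hr : ∀ j : ℕ, ra T (2 ^ j * n) = 2 * (2 ^ j * n) / L := fun j => ra_eq _ _
  have hrpos : ∀ j : ℕ, 0 < ra T (2 ^ j * n) := by
    intro j; rw [hr]; positivity
  have hrJ1 : ra T (2 ^ J * n) ≤ 1 / 100 := by
    rw [hr, div_le_iff₀ hL0]; linarith
  have hrJ2 : 1 / 200 < ra T (2 ^ J * n) := by
    rw [hr, lt_div_iff₀ hL0]; linarith
  have hpow : ∀ j : ℕ, j ≤ J → (2 : ℝ) ^ j * n ≤ L / 200 := by
    intro j hj
    refine le_trans ?_ hJ2
    apply mul_le_mul_of_nonneg_right _ (by positivity)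
    exact pow_le_pow_right₀ (by norm_num) hj
  have hpow1 : ∀ j : ℕ, (n : ℝ) ≤ 2 ^ j * n := by
    intro j
    exact le_mul_of_one_le_left (by positivity) (one_le_pow₀ (by norm_num))
  have hrj : ∀ j : ℕ, j ≤ J → ra T (2 ^ j * n) ≤ 1 / 100 := by
    intro j hj
    rw [hr, div_le_iff₀ hL0]
    have := hpow j hj
    linarith
  -- bad heights
  have hBvol : ∀ j : ℕ, j ≤ J → volume (BB η T (2 ^ j * n)) ≤
      ENNReal.ofReal (C1 * T * Real.exp (-(c1 * (2 ^ j * n)))) := by
    intro j hj
    refine le_trans (measure_mono ?_) (hsc1 T (2 ^ j * n) hTT1 (hna1.trans (hpow1 j)) (hpow j hj))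
    intro t0 ht0
    refine ⟨ht0.1, ht0.2.1, fun hG => ht0.2.2 ?_⟩
    exact hsc2' T (2 ^ j * n) t0 hTT2 (hna2.trans (hpow1 j)) (hpow j hj) ht0.1 ht0.2.1 hG
  have hgh : ∀ (j : ℕ) (t : ℝ), GH η T n j t → GH η8 T n j t := by
    intro j t h
    obtain ⟨t', ht1, ht2⟩ := h
    exact ⟨t', ht1, NN_mono ht2 hηη8 (by positivity)⟩
  refine ⟨fun S hS => ?_, BB η T (2 ^ 0 * n), ?_, ?_⟩
  · -- covering of `S`
    have hcov : ∀ s ∈ S, ¬ GH η T n J s ∨ ∃ i < J, ¬ GH η T n i s ∧ GH η T n (i + 1) s := by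
      intro s hs
      obtain ⟨hs1, hs2, hs3, hs4⟩ := hS s hs
      by_cases hc : GH η T n J s
      swap
      · exact Or.inl hc
      right
      have h00 : ¬ GH η T n 0 s := by
        intro hcon
        exact hs4 ((hnice T n s hTT8 hn8' hnL hs1 hs2 (hgh 0 s hcon)).1 hs3)
      set i := Nat.findGreatest (fun j => ¬ GH η T n j s) J with hi
      have hi1 : ¬ GH η T n i s :=
        Nat.findGreatest_spec (P := fun j => ¬ GH η T n j s) (Nat.zero_le J) h00
      have hi2 : i ≤ J := Nat.findGreatest_le J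
      have hi3 : i < J := by
        rcases hi2.lt_or_eq with h | h
        · exact h
        · rw [h] at hi1; exact absurd hc hi1
      refine ⟨i, hi3, hi1, ?_⟩
      by_contra hcon
      have := Nat.le_findGreatest (P := fun j => ¬ GH η T n j s) (show i + 1 ≤ J from hi3) hcon
      rw [← hi] at this
      omega
    have hsplit := split2R (fun s => (mz n s : ℝ)) (mz_nonneg n) S (fun s => ¬ GH η T n J s)
      (fun i s => ¬ GH η T n i s ∧ GH η T n (i + 1) s) J hcov
    -- the class (c)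
    have hbc : ∑ s ∈ S.filter (fun s => ¬ GH η T n J s), (mz n s : ℝ) ≤
        40000 * C5 * C1 * T * Real.exp (-(c1 * n)) * L := by
      have hδ0 : 0 < ra T (2 ^ J * n) / 200 := by have := hrpos J; positivity
      have h10 := coverR (fun s => (mz n s : ℝ)) (mz_nonneg n) (fun s => s) (ra T (2 ^ J * n) / 200) (2 * C5 * L)
        hδ0 (by positivity) (S.filter (fun s => ¬ GH η T n J s))
        (BB η T (2 ^ J * n)) (C1 * T * Real.exp (-(c1 * (2 ^ J * n)))) (by positivity)
        (by
          intro s hs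
          rw [Finset.mem_filter] at hs
          obtain ⟨hs1, hs2, -, -⟩ := hS s hs.1
          exact int_sub_H (by linarith) hs1 hs2 rfl (by linarith) hs.2)
        (hBvol J le_rfl)
        (by
          intro s0 hs0
          obtain ⟨hs1, hs2, -, -⟩ := hS s0 ((Finset.filter_subset _ _) hs0)
          have h11 := (hunit s0 n (by linarith) (hloghalf _ (by linarith))).1
            ((S.filter (fun s => ¬ GH η T n J s)).filter
              (fun s' => |s' - s0| ≤ 2 * (ra T (2 ^ J * n) / 200))) (by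
              intro s hs
              rw [Finset.mem_filter] at hs
              linarith [hs.2])
          refine h11.trans ?_
          have h12 : Real.log s0 ≤ 2 * L := (Real.log_le_log (by linarith) (by linarith)).trans hlog3
          have := mul_le_mul_of_nonneg_left h12 hC5.le
          linarith)
      refine h10.trans ?_
      rw [div_le_iff₀ (by positivity)]
      have h14 : Real.exp (-(c1 * (2 ^ J * n))) ≤ Real.exp (-(c1 * n)) := by
        apply Real.exp_le_exp.2
        have := mul_le_mul_of_nonneg_left (hpow1 J) hc1.le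
        linarith
      have h15 : (1 : ℝ) / 20000 ≤ 2 * (ra T (2 ^ J * n) / 200) := by linarith
      have h16 : 0 ≤ 40000 * C5 * C1 * T * Real.exp (-(c1 * n)) * L := by positivity
      calc 2 * C5 * L * (C1 * T * Real.exp (-(c1 * (2 ^ J * n))))
          ≤ 2 * C5 * L * (C1 * T * Real.exp (-(c1 * n))) := by gcongr
        _ = 40000 * C5 * C1 * T * Real.exp (-(c1 * n)) * L * (1 / 20000) := by ring
        _ ≤ _ := mul_le_mul_of_nonneg_left h15 h16
    -- the classes (b)
    have hbi : ∀ i ∈ Finset.range J, ∑ s ∈ S.filter (fun s => ¬ GH η T n i s ∧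
        GH η T n (i + 1) s), (mz n s : ℝ) ≤
        100 * C4 * C1 * T * L * Real.exp (-(c1 * (2 ^ i * n))) := by
      intro i hi
      rw [Finset.mem_range] at hi
      have hri := hrpos i
      have hri1 := hrpos (i + 1)
      have hdouble : ra T (2 ^ (i + 1) * n) = 2 * ra T (2 ^ i * n) := by
        rw [hr, hr, pow_succ]; ring
      have hδ0 : 0 < ra T (2 ^ i * n) / 200 := by positivity
      have h10 := coverR (fun s => (mz n s : ℝ)) (mz_nonneg n) (fun s => s) (ra T (2 ^ i * n) / 200)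
        (C4 * (2 ^ (i + 1) * n)) hδ0 (by positivity)
        (S.filter (fun s => ¬ GH η T n i s ∧ GH η T n (i + 1) s))
        (BB η T (2 ^ i * n)) (C1 * T * Real.exp (-(c1 * (2 ^ i * n)))) (by positivity)
        (by
          intro s hs
          rw [Finset.mem_filter] at hs
          obtain ⟨hs1, hs2, -, -⟩ := hS s hs.1
          exact int_sub_H (by linarith) hs1 hs2 rfl (by linarith [hrj i hi.le]) hs.2.1)
        (hBvol i hi.le)
        (by
          intro s0 hs0
          rw [Finset.mem_filter] at hs0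
          obtain ⟨hs0S, -, ⟨t', ht1, ht2⟩⟩ := hs0
          have hs0b := abs_le.1 ht1
          have hs01 := (hS s0 hs0S).1
          have h11 := hcount T (2 ^ (i + 1) * n) t' n hTT4
            (hn1'.trans (hpow1 _)) (hpow (i + 1) hi) (hpow1 _) (by linarith [hrj (i + 1) hi])
            (NN_mono ht2 hηη4 (by positivity))
            ((S.filter (fun s => ¬ GH η T n i s ∧ GH η T n (i + 1) s)).filter
              (fun s' => |s' - s0| ≤ 2 * (ra T (2 ^ i * n) / 200))) (by
              intro s hs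
              rw [Finset.mem_filter] at hs
              have h15 : |s - t'| ≤ |s - s0| + |s0 - t'| := abs_sub_le _ _ _
              linarith [hs.2])
          exact h11)
      refine h10.trans (le_of_eq ?_)
      rw [hr i, pow_succ]
      field_simp
      ring
    have hbb : ∑ i ∈ Finset.range J, ∑ s ∈ S.filter (fun s => ¬ GH η T n i s ∧
        GH η T n (i + 1) s), (mz n s : ℝ) ≤
        100 * C4 * C1 * Q * T * Real.exp (-(c1 * n)) * L := by
      refine (Finset.sum_le_sum hbi).trans ?_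
      rw [← Finset.mul_sum]
      calc 100 * C4 * C1 * T * L * ∑ i ∈ Finset.range J, Real.exp (-(c1 * (2 ^ i * n)))
          ≤ 100 * C4 * C1 * T * L * (Real.exp (-(c1 * n)) * Q) :=
            mul_le_mul_of_nonneg_left (geo c1 hc1 n J hn1) (by positivity)
        _ = _ := by ring
    have hlast : 0 ≤ C1 * T * Real.exp (-(c1 * n)) * L := by positivity
    calc ∑ s ∈ S, (mz n s : ℝ) ≤ _ := hsplit
      _ ≤ 40000 * C5 * C1 * T * Real.exp (-(c1 * n)) * L +
          100 * C4 * C1 * Q * T * Real.exp (-(c1 * n)) * L := add_le_add hbc hbb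
      _ ≤ 40000 * C5 * C1 * T * Real.exp (-(c1 * n)) * L +
          100 * C4 * C1 * Q * T * Real.exp (-(c1 * n)) * L + C1 * T * Real.exp (-(c1 * n)) * L := by linarith
      _ = _ := by ring
  · refine (hBvol 0 (Nat.zero_le _)).trans (ENNReal.ofReal_le_ofReal ?_)
    rw [pow_zero, one_mul]
    have h20 : C1 ≤ 40000 * C5 * C1 + 100 * C4 * C1 * Q + C1 := by
      have : 0 ≤ 40000 * C5 * C1 + 100 * C4 * C1 * Q := by positivity
      linarith
    gcongr
  · intro t ht1 ht2 htB
    have hG : GH η T n 0 t := by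
      by_contra hcon
      obtain ⟨ρ, hρ⟩ : ∃ ρ : ℝ, ρ = ra T (2 ^ 0 * n) / 200 := ⟨_, rfl⟩
      have hρ0 : 0 < ρ := by rw [hρ]; exact div_pos (hrpos 0) (by norm_num)
      have hρ1 : ρ ≤ 1 := by rw [hρ]; linarith [hrj 0 (Nat.zero_le _)]
      exact htB (int_sub_H (δ := ρ) (by linarith) ht1 ht2 hρ hρ1 hcon ⟨by linarith, by linarith⟩)
    exact (hnice T n t hTT8 hn8' hnL ht1 ht2 (hgh 0 t hG)).2

end Pool.Agent.Q278.DH
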