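import Pool.Agent.Q278.DH.J

set_option autoImplicit false

/-!
# The zeros of the derivatives of Hardy's function in dyadic windows
-/

namespace Pool.Agent.Q278.DH

open Complex Filter Topology MeasureTheory Set

/-- the zeros of the `n`-th derivative in `(T, 2T]` -/
def zs (n : ℕ) (T : ℝ) : Set ℝ := {t : ℝ | T < t ∧ t ≤ 2 * T ∧ iteratedDeriv n Z t = 0}

theorem total_Z : ∃ C T0 : ℝ, 0 < C ∧ 1000 ≤ T0 ∧ ∀ (T : ℝ) (n : ℕ), T0 ≤ T → (n : ℝ) ≤ Real.log T →
    (∀ S : Finset ℝ, (∀ s ∈ S, T < s ∧ s ≤ 2 * T) → ∑ s ∈ S, (mz n s : ℝ) ≤ C * (T * Real.log T)) ∧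
    ∀ s : ℝ, T < s → s ≤ 2 * T → iteratedDeriv n Z s = 0 → 1 ≤ mz n s := by
  obtain ⟨C5, T5, hC5, hT5, hunit⟩ := zunit
  refine ⟨4 * C5, max 1000 T5, by positivity, le_max_left _ _, ?_⟩
  intro T n hT hn
  have hT1000 : 1000 ≤ T := (le_max_left _ _).trans hT
  have hTT5 : T5 ≤ T := (le_max_right _ _).trans hT
  have hT0 : 0 < T := by linarith
  obtain ⟨L, hL⟩ : ∃ L : ℝ, L = Real.log T := ⟨_, rfl⟩
  have hL1 : 1 ≤ L := by
    rw [hL, Real.le_log_iff_exp_le hT0]
    have := Real.exp_one_lt_d9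
    linarith
  rw [← hL] at hn ⊢
  have hlog2 : Real.log (2 * T) ≤ 2 * L := by
    rw [Real.log_mul (by norm_num) hT0.ne', ← hL]
    have : Real.log 2 ≤ 1 := by
      have := Real.log_le_sub_one_of_pos (show (0 : ℝ) < 2 by norm_num)
      linarith
    linarith
  have hnl : ∀ s : ℝ, T < s → (n : ℝ) ≤ 5 * Real.log s := by
    intro s hs
    have h1 : L ≤ Real.log s := by
      rw [hL]
      exact Real.log_le_log hT0 hs.le
    linarith
  refine ⟨fun S hS => ?_, fun s hs1 hs2 h0 => ?_⟩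
  · have h := coverR (fun s => (mz n s : ℝ)) (mz_nonneg n) (fun s => s) (1 / 2) (2 * C5 * L) (by norm_num)
      (by positivity) S (Icc (T - 1 / 2) (2 * T + 1 / 2)) (T + 1) (by linarith) (by
        intro s hs x hx
        obtain ⟨h1, h2⟩ := hS s hs
        exact ⟨by linarith [hx.1], by linarith [hx.2]⟩) (by
        rw [Real.volume_Icc]
        apply ENNReal.ofReal_le_ofReal
        linarith) (by
        intro s hs
        obtain ⟨h1, h2⟩ := hS s hs
        have h3 := (hunit s n (by linarith) (hnl s h1)).1 (S.filter (fun s' => |s' - s| ≤ 2 * (1 / 2))) (by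
          intro x hx
          rw [Finset.mem_filter] at hx
          linarith [hx.2])
        refine h3.trans ?_
        have h4 : Real.log s ≤ 2 * L := (Real.log_le_log (by linarith) h2).trans hlog2
        have := mul_le_mul_of_nonneg_left h4 hC5.le
        linarith)
    refine h.trans ?_
    have e : 2 * C5 * L * (T + 1) / (2 * (1 / 2)) = 2 * C5 * L * (T + 1) := by ring
    rw [e]
    have h5 : 2 * C5 * L * (T + 1) ≤ 2 * C5 * L * (2 * T) := by
      have : 0 ≤ 2 * C5 * L := by positivity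
      gcongr
      linarith
    linarith
  · exact (hunit s n (by linarith) (hnl s hs1)).2 s (by simp) h0

/-- separated points -/
theorem card_sep {R : Finset ℝ} {a b d : ℝ} (hd : 0 < d) (hab : a ≤ b) (h1 : ∀ s ∈ R, a < s ∧ s ≤ b)
    (h2 : ∀ s ∈ R, ∀ s' ∈ R, s < s' → s + d ≤ s') : (R.card : ℝ) ≤ (b - a) / d + 1 := by
  have hmaps : ∀ s ∈ R, ⌊(s - a) / d⌋₊ ∈ Finset.range (⌊(b - a) / d⌋₊ + 1) := by
    intro s hs
    rw [Finset.mem_range, Nat.lt_succ_iff]
    apply Nat.floor_le_floor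
    have := (h1 s hs).2
    gcongr
  have hinj : Set.InjOn (fun s : ℝ => ⌊(s - a) / d⌋₊) (R : Set ℝ) := by
    have key : ∀ s ∈ R, ∀ s' ∈ R, s < s' → ⌊(s - a) / d⌋₊ ≠ ⌊(s' - a) / d⌋₊ := by
      intro s hs s' hs' hlt heq
      have h3 := h2 s hs s' hs' hlt
      have h4 : 0 ≤ (s - a) / d := div_nonneg (by linarith [(h1 s hs).1]) hd.le
      have h5 : (s - a) / d + 1 ≤ (s' - a) / d := by
        rw [← div_self hd.ne', ← add_div]
        apply div_le_div_of_nonneg_right _ hd.le
        linarith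
      have h6 := Nat.floor_le_floor h5
      rw [Nat.floor_add_one h4] at h6
      omega
    intro s hs s' hs' heq
    rcases lt_trichotomy s s' with h | h | h
    · exact absurd heq (key s hs s' hs' h)
    · exact h
    · exact absurd heq.symm (key s' hs' s hs h)
  have hcard := Finset.card_le_card_of_injOn _ hmaps hinj
  rw [Finset.card_range] at hcard
  have h3 : (R.card : ℝ) ≤ (⌊(b - a) / d⌋₊ : ℝ) + 1 := by exact_mod_cast hcard
  have h4 : (⌊(b - a) / d⌋₊ : ℝ) ≤ (b - a) / d := Nat.floor_le (div_nonneg (by linarith) hd.le)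
  linarith

/-- **Zeros of the derivatives in dyadic windows.** -/
theorem main_Z {η : ℝ} (hη0 : 0 < η) (hη1 : η ≤ 1 / 2) : ∃ c C T0 : ℝ, 0 < c ∧ 0 < C ∧ 1000 ≤ T0 ∧
    ∀ (T : ℝ) (n : ℕ), T0 ≤ T → (n : ℝ) ≤ Real.log T / 400 →
    (zs n T).Finite ∧
    (1 - η - C * Real.exp (-(c * n))) * (T / (2 * Real.pi) * Real.log T) ≤ ((zs n T).ncard : ℝ) ∧
    ((zs n T).ncard : ℝ) ≤ (1 + 3 * η + C * Real.exp (-(c * n))) * (T / (2 * Real.pi) * Real.log T) ∧
    ∀ S : Finset ℝ, (∀ s ∈ S, s ∈ zs n T ∧ ¬ Regular n η s) →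
      ∑ s ∈ S, (mz n s : ℝ) ≤ C * Real.exp (-(c * n)) * (T / (2 * Real.pi) * Real.log T) := by
  classical
  obtain ⟨c, C1, T1, n0, hc, hC1, hT1, hn0, hmid⟩ := mid_Z hη0 (hη1.trans (by norm_num))
  obtain ⟨C2, T2, hC2, hT2, htot⟩ := total_Z
  have hpi := Real.pi_pos
  obtain ⟨C, hC⟩ : ∃ C : ℝ, C = 2 * Real.pi * (C1 + (C2 + 1) * Real.exp (c * n0)) := ⟨_, rfl⟩
  have hpi3 : 3 < Real.pi := Real.pi_gt_three
  have hpi4 : Real.pi < 4 := Real.pi_lt_four
  have hCp : 0 < C := by rw [hC]; positivity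
  have hCC1 : 2 * Real.pi * C1 ≤ C := by
    rw [hC]
    have : 0 ≤ (C2 + 1) * Real.exp (c * n0) := by positivity
    nlinarith
  have hC1C : C1 ≤ C := by nlinarith
  refine ⟨c, C, max (max T1 T2) (Real.exp (16 / η ^ 2 + 3 / η + 400)), hc, hCp,
    hT1.trans ((le_max_left _ _).trans (le_max_left _ _)), ?_⟩
  intro T n hT hn
  have hTT1 : T1 ≤ T := ((le_max_left _ _).trans (le_max_left _ _)).trans hT
  have hTT2 : T2 ≤ T := ((le_max_right _ _).trans (le_max_left _ _)).trans hT
  have hT0 : 0 < T := by linarith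
  obtain ⟨L, hL⟩ : ∃ L : ℝ, L = Real.log T := ⟨_, rfl⟩
  have hLb : 16 / η ^ 2 + 3 / η + 400 ≤ L := by
    rw [hL, Real.le_log_iff_exp_le hT0]
    exact (le_max_right _ _).trans hT
  have hp1 : 0 < 16 / η ^ 2 := by positivity
  have hp2 : 0 < 3 / η := by positivity
  have hL0 : 0 < L := by linarith
  have hLη : 16 / η ^ 2 ≤ L := by linarith
  have hLη2 : 3 / η ≤ L := by linarith
  rw [div_le_iff₀ (by positivity)] at hLη
  rw [div_le_iff₀ hη0] at hLη2
  have hLT : L ≤ T := by
    have := Real.log_le_sub_one_of_pos hT0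
    rw [hL]
    linarith
  obtain ⟨htotS, htot1⟩ := htot T n hTT2 (by rw [← hL] at hn ⊢; linarith)
  rw [← hL] at hn htotS ⊢
  have htotS' : ∀ S : Finset ℝ, (∀ s ∈ S, s ∈ zs n T) → (S.card : ℝ) ≤ ∑ s ∈ S, (mz n s : ℝ) := by
    intro S hS
    have h1 : ∑ s ∈ S, (1 : ℝ) ≤ ∑ s ∈ S, (mz n s : ℝ) := by
      apply Finset.sum_le_sum
      intro s hs
      obtain ⟨h1, h2, h3⟩ := hS s hs
      exact_mod_cast htot1 s h1 h2 h3
    rwa [Finset.sum_const, nsmul_eq_mul, mul_one] at h1
  have hfin : (zs n T).Finite := by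
    by_contra hcon
    obtain ⟨S, hS1, hS2⟩ := Set.Infinite.exists_subset_card_eq hcon (⌈C2 * (T * L)⌉₊ + 1)
    have h1 := htotS' S (fun s hs => hS1 hs)
    have h2 := htotS S (fun s hs => ⟨(hS1 hs).1, (hS1 hs).2.1⟩)
    rw [hS2] at h1
    push_cast at h1
    have h3 := Nat.le_ceil (C2 * (T * L))
    linarith
  obtain ⟨𝒵, h𝒵⟩ : ∃ 𝒵 : Finset ℝ, 𝒵 = hfin.toFinset := ⟨_, rfl⟩
  have hmem : ∀ s, s ∈ 𝒵 ↔ s ∈ zs n T := by
    intro s
    rw [h𝒵, Set.Finite.mem_toFinset]
  have hcard : ((zs n T).ncard : ℝ) = 𝒵.card := by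
    rw [h𝒵, Set.ncard_eq_toFinset_card _ hfin]
  rw [hcard]
  obtain ⟨M, hM⟩ : ∃ M : ℝ, M = T / (2 * Real.pi) * L := ⟨_, rfl⟩
  have hM0 : 0 < M := by rw [hM]; positivity
  have hTLM : T * L = 2 * Real.pi * M := by rw [hM]; field_simp
  have hM2 : 2 * M * η ^ 2 ≥ 4 := by
    have h1 : 8 * M ≥ T * L := by
      rw [hTLM]
      nlinarith
    have h2 : T * L ≥ 16 / η ^ 2 := by
      rw [ge_iff_le, div_le_iff₀ (by positivity)]
      have : L * η ^ 2 ≤ T * L * η ^ 2 := by
        have h3 : L ≤ T * L := by nlinarith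
        gcongr
      linarith
    rw [ge_iff_le, div_le_iff₀ (by positivity)] at h2
    nlinarith [sq_nonneg η, mul_le_mul_of_nonneg_right h1 (sq_nonneg η)]
  rw [← hM]
  have hexp0 := Real.exp_pos (-(c * n))
  rcases lt_or_ge n n0 with hnn | hnn
  · -- small `n`
    have he : 2 * Real.pi * (C2 + 1) ≤ C * Real.exp (-(c * n)) := by
      have h1 : Real.exp (c * n0) * Real.exp (-(c * n)) ≥ 1 := by
        rw [← Real.exp_add, ge_iff_le, ← Real.exp_zero]
        apply Real.exp_le_exp.2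
        have : (n : ℝ) ≤ n0 := by exact_mod_cast hnn.le
        nlinarith
      rw [hC]
      calc 2 * Real.pi * (C2 + 1) = 2 * Real.pi * ((C2 + 1) * 1) := by ring
        _ ≤ 2 * Real.pi * ((C2 + 1) * (Real.exp (c * n0) * Real.exp (-(c * n)))) := by
          have : 0 ≤ 2 * Real.pi * (C2 + 1) := by positivity
          rw [← mul_assoc, ← mul_assoc]
          exact mul_le_mul_of_nonneg_left h1 this
        _ ≤ 2 * Real.pi * (C1 * Real.exp (-(c * n)) + (C2 + 1) * (Real.exp (c * n0) * Real.exp (-(c * n)))) := by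
          have : 0 ≤ C1 * Real.exp (-(c * n)) := by positivity
          have h2 : 0 ≤ 2 * Real.pi := by positivity
          apply mul_le_mul_of_nonneg_left _ h2
          linarith
        _ = _ := by ring
    have htotM : ∀ S : Finset ℝ, (∀ s ∈ S, s ∈ zs n T) → ∑ s ∈ S, (mz n s : ℝ) ≤
        C * Real.exp (-(c * n)) * M := by
      intro S hS
      refine (htotS S (fun s hs => ⟨(hS s hs).1, (hS s hs).2.1⟩)).trans ?_
      rw [hTLM]
      have h1 := mul_le_mul_of_nonneg_right he hM0.le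
      nlinarith [mul_pos hpi hM0]
    refine ⟨hfin, ?_, ?_, fun S hS => htotM S (fun s hs => (hS s hs).1)⟩
    · have h1 : 1 - η - C * Real.exp (-(c * n)) ≤ 0 := by nlinarith
      have h2 : (1 - η - C * Real.exp (-(c * n))) * M ≤ 0 := mul_nonpos_of_nonpos_of_nonneg h1 hM0.le
      exact h2.trans (Nat.cast_nonneg _)
    · have h1 := (htotS' 𝒵 (fun s hs => (hmem s).1 hs)).trans (htotM 𝒵 (fun s hs => (hmem s).1 hs))
      refine h1.trans ?_
      have : 0 ≤ (1 + 3 * η) * M := by positivity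
      linarith
  · obtain ⟨hA, B, hB, hBz⟩ := hmid T n hTT1 hnn (by rw [← hL]; exact hn)
    rw [← hL] at hA hBz
    have hnreg : ∀ S : Finset ℝ, (∀ s ∈ S, s ∈ zs n T ∧ ¬ Regular n η s) →
        ∑ s ∈ S, (mz n s : ℝ) ≤ C * Real.exp (-(c * n)) * M := by
      intro S hS
      refine (hA S (fun s hs => ⟨(hS s hs).1.1, (hS s hs).1.2.1, (hS s hs).1.2.2, (hS s hs).2⟩)).trans ?_
      calc C1 * T * Real.exp (-(c * n)) * L = C1 * Real.exp (-(c * n)) * (T * L) := by ring
        _ = (2 * Real.pi * C1) * Real.exp (-(c * n)) * M := by rw [hTLM]; ring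
        _ ≤ _ := by gcongr
    refine ⟨hfin, ?_, ?_, hnreg⟩
    · -- lower bound
      obtain ⟨x, hx⟩ : ∃ x : ℝ, x = C * Real.exp (-(c * n)) := ⟨_, rfl⟩
      rw [← hx]
      have hx0 : 0 < x := by rw [hx]; positivity
      rcases le_or_gt 1 x with hx1 | hx1
      · have h1 : 1 - η - x ≤ 0 := by linarith
        have h2 : (1 - η - x) * M ≤ 0 := mul_nonpos_of_nonpos_of_nonneg h1 hM0.le
        exact h2.trans (Nat.cast_nonneg _)
      obtain ⟨g, hg⟩ : ∃ g : ℝ, g = (1 + η) * (2 * Real.pi / L) := ⟨_, rfl⟩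
      have hg0 : 0 < g := by rw [hg]; positivity
      rw [← hg] at hBz
      have hcov : Ioc (T + g) (2 * T) ⊆ B ∪ ⋃ s ∈ 𝒵, Icc s (s + g) := by
        intro t ht
        by_cases htB : t ∈ B
        · exact Or.inl htB
        right
        obtain ⟨t2, h1, h2, h3⟩ := hBz t (by linarith [ht.1]) ht.2 htB
        simp only [Set.mem_iUnion]
        refine ⟨t2, (hmem t2).2 ⟨by linarith [ht.1], by linarith [ht.2], h3⟩, h2, by linarith⟩
      have hvol : volume (Ioc (T + g) (2 * T)) ≤ ENNReal.ofReal (C1 * T * Real.exp (-(c * n)) + 𝒵.card * g) := by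
        refine (measure_mono hcov).trans ((measure_union_le _ _).trans ?_)
        rw [ENNReal.ofReal_add (by positivity) (by positivity)]
        refine add_le_add hB ?_
        refine (measure_biUnion_finset_le 𝒵 _).trans ?_
        have h1 : ∀ s ∈ 𝒵, volume (Icc s (s + g)) = ENNReal.ofReal g := by
          intro s _
          rw [Real.volume_Icc]
          congr 1
          ring
        rw [Finset.sum_congr rfl h1, Finset.sum_const, nsmul_eq_mul, ENNReal.ofReal_mul (Nat.cast_nonneg _),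
          ENNReal.ofReal_natCast]
      rw [Real.volume_Ioc, ENNReal.ofReal_le_ofReal_iff (by positivity)] at hvol
      have hgL : g * L = (1 + η) * (2 * Real.pi) := by rw [hg]; field_simp
      -- `T (1 - x) ≤ (card + 1) g`
      have h1 : T * (1 - x) ≤ (𝒵.card + 1) * g := by
        have h2 : C1 * T * Real.exp (-(c * n)) ≤ x * T := by
          rw [hx]
          have : C1 * T * Real.exp (-(c * n)) ≤ C * T * Real.exp (-(c * n)) := by gcongr
          linarith
        linarith
      have h3 : (T * L) * (1 - x) ≤ (𝒵.card + 1) * ((1 + η) * (2 * Real.pi)) := by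
        have h4 := mul_le_mul_of_nonneg_right h1 hL0.le
        rw [mul_assoc ((𝒵.card : ℝ) + 1), hgL] at h4
        linarith
      rw [hTLM] at h3
      have h5 : M * (1 - x) ≤ (𝒵.card + 1) * (1 + η) := by
        have h6 : 2 * Real.pi * (M * (1 - x)) ≤ 2 * Real.pi * ((𝒵.card + 1) * (1 + η)) := by linarith
        exact le_of_mul_le_mul_left h6 (by positivity)
      have h7 : (1 - η + η ^ 2 / 2) * (1 + η) ≤ 1 := by
        have : η ^ 3 ≤ η ^ 2 := pow_le_pow_of_le_one hη0.le (by linarith) (by norm_num)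
        nlinarith
      have h8 : M * (1 - x) * (1 - η + η ^ 2 / 2) ≤ 𝒵.card + 1 := by
        have h9 : 0 ≤ 1 - η + η ^ 2 / 2 := by nlinarith
        have hcp : (0 : ℝ) ≤ 𝒵.card + 1 := by positivity
        calc M * (1 - x) * (1 - η + η ^ 2 / 2) ≤ (𝒵.card + 1) * (1 + η) * (1 - η + η ^ 2 / 2) :=
              mul_le_mul_of_nonneg_right h5 h9
          _ = (𝒵.card + 1) * ((1 - η + η ^ 2 / 2) * (1 + η)) := by ring
          _ ≤ (𝒵.card + 1) * 1 := mul_le_mul_of_nonneg_left h7 hcp
          _ = _ := mul_one _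
      have h10 : M * (1 - η - x + η ^ 2 / 2) ≤ M * (1 - x) * (1 - η + η ^ 2 / 2) := by
        have h11 : 1 - η - x + η ^ 2 / 2 ≤ (1 - x) * (1 - η + η ^ 2 / 2) := by
          have : η ^ 2 / 2 ≤ η := by nlinarith
          nlinarith
        calc M * (1 - η - x + η ^ 2 / 2) ≤ M * ((1 - x) * (1 - η + η ^ 2 / 2)) :=
              mul_le_mul_of_nonneg_left h11 hM0.le
          _ = _ := by ring
      nlinarith
    · -- upper bound
      obtain ⟨R, hR⟩ : ∃ R : Finset ℝ, R = 𝒵.filter (fun s => Regular n η s) := ⟨_, rfl⟩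
      obtain ⟨N, hN⟩ : ∃ N : Finset ℝ, N = 𝒵.filter (fun s => ¬ Regular n η s) := ⟨_, rfl⟩
      have hsum : (𝒵.card : ℝ) = R.card + N.card := by
        rw [hR, hN]
        exact_mod_cast (Finset.card_filter_add_card_filter_not (s := 𝒵) (p := fun s => Regular n η s)).symm
      have hNc : (N.card : ℝ) ≤ C * Real.exp (-(c * n)) * M := by
        have h1 : ∀ s ∈ N, s ∈ zs n T ∧ ¬ Regular n η s := by
          intro s hs
          rw [hN, Finset.mem_filter] at hs
          exact ⟨(hmem s).1 hs.1, hs.2⟩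
        exact (htotS' N (fun s hs => (h1 s hs).1)).trans (hnreg N h1)
      obtain ⟨d, hd⟩ : ∃ d : ℝ, d = (1 - η) * (2 * Real.pi) / (L + 1) := ⟨_, rfl⟩
      have hd0 : 0 < d := by
        rw [hd]
        have : 0 < 1 - η := by linarith
        positivity
      have hRc : (R.card : ℝ) ≤ (2 * T - T) / d + 1 := by
        apply card_sep hd0 (by linarith)
        · intro s hs
          rw [hR, Finset.mem_filter] at hs
          have := (hmem s).1 hs.1
          exact ⟨this.1, this.2.1⟩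
        · intro s hs s' hs' hlt
          rw [hR, Finset.mem_filter] at hs hs'
          obtain ⟨hz1, hz2, hz3⟩ := (hmem s).1 hs.1
          obtain ⟨hz4, hz5, hz6⟩ := (hmem s').1 hs'.1
          obtain ⟨-, t1, ht1, ht2, ht3, ht4⟩ := hs.2
          have h1 : t1 ≤ s' := by
            by_contra hcon
            push Not at hcon
            exact ht3 s' hlt hcon hz6
          have hlog1 : L ≤ Real.log s := by
            rw [hL]
            exact Real.log_le_log hT0 hz1.le
          have hlog2 : Real.log s ≤ L + 1 := by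
            have h6 : Real.log s ≤ Real.log (2 * T) := Real.log_le_log (by linarith) hz2
            rw [Real.log_mul (by norm_num) hT0.ne', ← hL] at h6
            have h7 : Real.log 2 ≤ 1 := by
              have := Real.log_le_sub_one_of_pos (show (0 : ℝ) < 2 by norm_num)
              linarith
            linarith
          have h2 : (1 - η) * (2 * Real.pi) ≤ (t1 - s) * Real.log s := by
            have h3 := (abs_le.1 ht4).1
            have h4 : 1 - η ≤ (t1 - s) * Real.log s / (2 * Real.pi) := by linarith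
            rwa [le_div_iff₀ (by positivity)] at h4
          have h3 : d ≤ t1 - s := by
            rw [hd, div_le_iff₀ (by linarith)]
            refine h2.trans ?_
            have : 0 ≤ t1 - s := by linarith
            gcongr
          linarith
      have h1 : (2 * T - T) / d ≤ (1 + 2 * η) * (T / (2 * Real.pi)) * (L + 1) := by
        have e : 2 * T - T = T := by ring
        rw [e, div_le_iff₀ hd0, hd]
        have h2 : 1 ≤ (1 + 2 * η) * (1 - η) := by nlinarith
        have e2 : (1 + 2 * η) * (T / (2 * Real.pi)) * (L + 1) * ((1 - η) * (2 * Real.pi) / (L + 1)) =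
            T * ((1 + 2 * η) * (1 - η)) := by
          field_simp
        rw [e2]
        nlinarith
      have h2 : (1 + 2 * η) * (T / (2 * Real.pi)) * (L + 1) + 1 ≤ (1 + 3 * η) * M := by
        obtain ⟨q, hq⟩ : ∃ q : ℝ, q = T / (2 * Real.pi) := ⟨_, rfl⟩
        rw [hM, ← hq]
        have hq1 : 1 ≤ q := by
          rw [hq, le_div_iff₀ (by positivity)]
          linarith
        have h3 : 3 * q ≤ (L * η) * q := mul_le_mul_of_nonneg_right hLη2 (by linarith)
        have h4 : 2 * η * q ≤ q := by nlinarith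
        nlinarith
      rw [hsum]
      have h3 : (1 + 3 * η + C * Real.exp (-(c * n))) * M = (1 + 3 * η) * M + C * Real.exp (-(c * n)) * M := by ring
      rw [h3]
      linarith

/-- all derivatives together -/
theorem main_sum {η : ℝ} (hη0 : 0 < η) (hη1 : η ≤ 1 / 2) : ∃ C T0 : ℝ, 0 < C ∧ 1000 ≤ T0 ∧
    ∀ (T : ℝ) (N : ℕ), T0 ≤ T → (N : ℝ) ≤ Real.log T / 400 →
    ∀ S : ℕ → Finset ℝ, (∀ n ≤ N, ∀ s ∈ S n, s ∈ zs n T ∧ ¬ Regular n η s) →
      ∑ n ∈ Finset.range (N + 1), ∑ s ∈ S n, (mz n s : ℝ) ≤ C * (T * Real.log T) := by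
  obtain ⟨c, C, T0, hc, hC, hT0, h⟩ := main_Z hη0 hη1
  have hpi := Real.pi_gt_three
  have hq : Real.exp (-c) < 1 := Real.exp_lt_one_iff.2 (by linarith)
  have hq0 := Real.exp_pos (-c)
  refine ⟨C * (1 / (1 - Real.exp (-c))), T0, by
    have : 0 < 1 - Real.exp (-c) := by linarith
    positivity, hT0, ?_⟩
  intro T N hT hN S hS
  have hTpos : 0 < T := by linarith
  have hL0 : 0 ≤ Real.log T := Real.log_nonneg (by linarith)
  have h1 : ∀ n ∈ Finset.range (N + 1), ∑ s ∈ S n, (mz n s : ℝ) ≤ C * (T * Real.log T) * Real.exp (-c) ^ n := by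
    intro n hn
    rw [Finset.mem_range, Nat.lt_succ_iff] at hn
    have hn' : (n : ℝ) ≤ N := by exact_mod_cast hn
    refine ((h T n hT (hn'.trans hN)).2.2.2 (S n) (hS n hn)).trans ?_
    have e : Real.exp (-(c * n)) = Real.exp (-c) ^ n := by
      rw [← Real.exp_nat_mul]
      congr 1
      ring
    rw [e]
    have h2 : T / (2 * Real.pi) * Real.log T ≤ T * Real.log T := by
      apply mul_le_mul_of_nonneg_right _ hL0
      rw [div_le_iff₀ (by linarith)]
      nlinarith
    have h3 : 0 ≤ C * Real.exp (-c) ^ n := by positivity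
    calc C * Real.exp (-c) ^ n * (T / (2 * Real.pi) * Real.log T) ≤ C * Real.exp (-c) ^ n * (T * Real.log T) :=
          mul_le_mul_of_nonneg_left h2 h3
      _ = _ := by ring
  refine (Finset.sum_le_sum h1).trans ?_
  rw [← Finset.mul_sum]
  have h4 : ∑ n ∈ Finset.range (N + 1), Real.exp (-c) ^ n ≤ 1 / (1 - Real.exp (-c)) := by
    have h5 := hasSum_geometric_of_lt_one hq0.le hq
    have h6 := sum_le_hasSum (Finset.range (N + 1)) (fun i _ => by positivity) h5
    rw [one_div]
    exact h6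
  have h7 : 0 ≤ C * (T * Real.log T) := by positivity
  calc C * (T * Real.log T) * ∑ n ∈ Finset.range (N + 1), Real.exp (-c) ^ n
      ≤ C * (T * Real.log T) * (1 / (1 - Real.exp (-c))) := mul_le_mul_of_nonneg_left h4 h7
    _ = _ := by ring

end Pool.Agent.Q278.DH
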